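import Pool.Agent.Run7.h285.Blk

/-!
# Piece E of the project CR (helper757): long windows, Chebyshev, small values, the fundamental lemma
-/

set_option autoImplicit false

namespace Run7.h285.E3

open Finset Filter
open Pool.Agent.H373R2.T7 (pz Vz lamz mem_pz Vz_ge Vz_inv_le Vz_le_one Vz_inv_small)
open Pool.Agent.TH892.SW (ff ffn wt wt_nonneg wt_le flq HP)
open Pool.Agent.TH892.OW (fz lz)
open Run7.h757.CR (M2 P Wt hprod)

/-! ### long windows -/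

lemma M2_shift (g : ℤ → ℝ) (s : ℤ) (X m₀ M c H : ℕ) :
    ∑ a ∈ Icc (-(X : ℤ)) X, ∑ m ∈ Ioc m₀ (m₀ + M), (∑ n ∈ Ioc (m + c) (m + c + H), g (s * ((n : ℤ) ^ 2 + a))) ^ 2 =
      M2 g s X (m₀ + c) M H := by
  unfold M2
  refine sum_congr rfl fun a _ => ?_
  refine sum_nbij' (fun m => m + c) (fun m => m - c) ?_ ?_ ?_ ?_ ?_
  · intro m hm; rw [mem_Ioc] at hm ⊢; omega
  · intro m hm; rw [mem_Ioc] at hm ⊢; omega
  · intro m hm; simp
  · intro m hm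
    rw [mem_Ioc] at hm
    show m - c + c = m
    omega
  · intro m _; rfl

lemma win_split (f : ℕ → ℝ) (m H₁ J r : ℕ) :
    ∑ n ∈ Ioc m (m + (J * H₁ + r)), f n = ∑ j ∈ range J, ∑ n ∈ Ioc (m + j * H₁) (m + j * H₁ + H₁), f n +
      ∑ n ∈ Ioc (m + J * H₁) (m + J * H₁ + r), f n := by
  have h1 : ∀ J : ℕ, ∑ n ∈ Ioc m (m + J * H₁), f n = ∑ j ∈ range J, ∑ n ∈ Ioc (m + j * H₁) (m + j * H₁ + H₁), f n := by
    intro J
    induction J with
    | zero => simp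
    | succ J ih =>
      rw [sum_range_succ, ← ih, sum_Ioc_consecutive _ (Nat.le_add_right _ _) (Nat.le_add_right _ _)]
      congr 2; ring
  rw [← h1, sum_Ioc_consecutive _ (Nat.le_add_right _ _) (Nat.le_add_right _ _), Nat.add_assoc]

lemma M2_cs (g : ℤ → ℝ) (s : ℤ) (X m₀ M H₁ J r : ℕ) :
    M2 g s X m₀ M (J * H₁ + r) ≤
      ((J : ℝ) + 1) * (∑ j ∈ range J, M2 g s X (m₀ + j * H₁) M H₁ + M2 g s X (m₀ + J * H₁) M r) := by
  have key : ∀ (a : ℤ) (m : ℕ), (∑ n ∈ Ioc m (m + (J * H₁ + r)), g (s * ((n : ℤ) ^ 2 + a))) ^ 2 ≤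
      ((J : ℝ) + 1) * (∑ j ∈ range J, (∑ n ∈ Ioc (m + j * H₁) (m + j * H₁ + H₁), g (s * ((n : ℤ) ^ 2 + a))) ^ 2 +
        (∑ n ∈ Ioc (m + J * H₁) (m + J * H₁ + r), g (s * ((n : ℤ) ^ 2 + a))) ^ 2) := by
    intro a m
    rw [win_split]
    have h1 := sq_sum_le_card_mul_sum_sq (s := range (J + 1))
      (f := fun j => if j < J then ∑ n ∈ Ioc (m + j * H₁) (m + j * H₁ + H₁), g (s * ((n : ℤ) ^ 2 + a)) else
        ∑ n ∈ Ioc (m + J * H₁) (m + J * H₁ + r), g (s * ((n : ℤ) ^ 2 + a)))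
    rw [sum_range_succ, sum_range_succ, card_range] at h1
    have h2 : ∀ F : ℝ → ℝ, ∑ j ∈ range J, F (if j < J then ∑ n ∈ Ioc (m + j * H₁) (m + j * H₁ + H₁), g (s * ((n : ℤ) ^ 2 + a)) else
        ∑ n ∈ Ioc (m + J * H₁) (m + J * H₁ + r), g (s * ((n : ℤ) ^ 2 + a))) =
        ∑ j ∈ range J, F (∑ n ∈ Ioc (m + j * H₁) (m + j * H₁ + H₁), g (s * ((n : ℤ) ^ 2 + a))) := by
      intro F
      refine sum_congr rfl fun j hj => ?_
      rw [if_pos (mem_range.1 hj)]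
    have h3 := h2 (fun x => x)
    have h4 := h2 (fun x => x ^ 2)
    rw [h3, h4] at h1
    simp only [lt_irrefl, if_false] at h1
    push_cast at h1
    exact h1
  have e1 : M2 g s X m₀ M (J * H₁ + r) = ∑ a ∈ Icc (-(X : ℤ)) X, ∑ m ∈ Ioc m₀ (m₀ + M),
      (∑ n ∈ Ioc m (m + (J * H₁ + r)), g (s * ((n : ℤ) ^ 2 + a))) ^ 2 := rfl
  rw [e1]
  refine (sum_le_sum fun a _ => sum_le_sum fun m _ => key a m).trans (le_of_eq ?_)
  simp_rw [← mul_sum, sum_add_distrib]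
  congr 2
  · rw [← sum_congr rfl fun j _ => M2_shift g s X m₀ M (j * H₁) H₁, sum_comm]
    rw [sum_comm]
    refine (sum_congr rfl fun a _ => ?_).trans sum_comm
    exact sum_comm
  · exact M2_shift g s X m₀ M (J * H₁) r

lemma M2_nonneg (g : ℤ → ℝ) (s : ℤ) (X m₀ M H : ℕ) : 0 ≤ M2 g s X m₀ M H :=
  sum_nonneg fun _ _ => sum_nonneg fun _ _ => sq_nonneg _

lemma M2_zero (g : ℤ → ℝ) (s : ℤ) (X m₀ M : ℕ) : M2 g s X m₀ M 0 = 0 := by
  unfold M2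
  simp

/-- bounds for short windows give bounds for long windows -/
lemma M2_long (g : ℤ → ℝ) (s : ℤ) (X M H₁ : ℕ) (V W : ℝ) (hH₁ : 1 ≤ H₁) (hV : 0 ≤ V)
    (h : ∀ m₀ r : ℕ, 1 ≤ r → r ≤ H₁ → (m₀ : ℝ) + M ≤ W → M2 g s X m₀ M r ≤ V) :
    ∀ m₀ H : ℕ, H₁ ≤ H → (m₀ : ℝ) + H + M ≤ W → M2 g s X m₀ M H ≤ 4 * ((H : ℝ) / H₁) ^ 2 * V := by
  intro m₀ H hH hW
  obtain ⟨J, hJ⟩ : ∃ J, J = H / H₁ := ⟨_, rfl⟩
  obtain ⟨r, hr⟩ : ∃ r, r = H % H₁ := ⟨_, rfl⟩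
  have hHJ : H = J * H₁ + r := by rw [hJ, hr, mul_comm]; exact (Nat.div_add_mod H H₁).symm
  have hr1 : r < H₁ := by rw [hr]; exact Nat.mod_lt _ (by omega)
  have hJ1 : 1 ≤ J := by rw [hJ]; exact Nat.div_pos hH (by omega)
  have h1 := M2_cs g s X m₀ M H₁ J r
  rw [← hHJ] at h1
  refine h1.trans ?_
  have hHr : (H : ℝ) = J * H₁ + r := by exact_mod_cast hHJ
  have hr0 : (0 : ℝ) ≤ r := Nat.cast_nonneg _
  have h2 : ∀ j ∈ range J, M2 g s X (m₀ + j * H₁) M H₁ ≤ V := by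
    intro j hj
    rw [mem_range] at hj
    apply h _ _ hH₁ le_rfl
    push_cast
    have : (j : ℝ) * H₁ ≤ J * H₁ := mul_le_mul_of_nonneg_right (by exact_mod_cast hj.le) (Nat.cast_nonneg _)
    linarith
  have h3 : M2 g s X (m₀ + J * H₁) M r ≤ V := by
    rcases Nat.eq_zero_or_pos r with h0 | h0
    · rw [h0, M2_zero]; exact hV
    · apply h _ _ h0 hr1.le
      push_cast
      linarith
  have h4 := sum_le_sum h2
  rw [sum_const, card_range, nsmul_eq_mul] at h4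
  have hH1r : (0 : ℝ) < H₁ := by exact_mod_cast hH₁
  have hJr : (1 : ℝ) ≤ J := by exact_mod_cast hJ1
  have h5 : (J : ℝ) + 1 ≤ 2 * ((H : ℝ) / H₁) := by
    rw [mul_div_assoc', le_div_iff₀ hH1r]
    nlinarith
  calc ((J : ℝ) + 1) * (∑ j ∈ range J, M2 g s X (m₀ + j * H₁) M H₁ + M2 g s X (m₀ + J * H₁) M r)
      ≤ ((J : ℝ) + 1) * (J * V + V) := mul_le_mul_of_nonneg_left (by linarith) (by linarith)
    _ = ((J : ℝ) + 1) ^ 2 * V := by ring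
    _ ≤ (2 * ((H : ℝ) / H₁)) ^ 2 * V := by gcongr
    _ = _ := by ring

/-! ### Chebyshev -/

lemma cheb (A : Finset ℤ) (I : Finset ℕ) (F : ℤ → ℕ → ℝ) (lam S : ℝ) (hl : 0 < lam)
    (h : ∑ a ∈ A, ∑ m ∈ I, F a m ^ 2 ≤ S) :
    (#((A ×ˢ I).filter (fun p => lam < |F p.1 p.2|)) : ℝ) ≤ S / lam ^ 2 := by
  rw [le_div_iff₀ (by positivity)]
  rw [← sum_product' (f := fun a m => F a m ^ 2)] at h
  refine le_trans ?_ h
  refine le_trans ?_ (sum_le_sum_of_subset_of_nonneg (filter_subset (fun p => lam < |F p.1 p.2|) (A ×ˢ I))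
    fun p _ _ => sq_nonneg _)
  rw [← nsmul_eq_mul]
  apply card_nsmul_le_sum
  intro p hp
  rw [mem_filter] at hp
  have h1 := pow_le_pow_left₀ hl.le hp.2.le 2
  rwa [sq_abs] at h1

lemma markov (A : Finset ℤ) (I : Finset ℕ) (F : ℤ → ℕ → ℝ) (lam S : ℝ) (hl : 0 < lam) (hF : ∀ a m, 0 ≤ F a m)
    (h : ∑ a ∈ A, ∑ m ∈ I, F a m ≤ S) :
    (#((A ×ˢ I).filter (fun p => lam < F p.1 p.2)) : ℝ) ≤ S / lam := by
  rw [le_div_iff₀ hl]
  rw [← sum_product' (f := fun a m => F a m)] at h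
  refine le_trans ?_ h
  refine le_trans ?_ (sum_le_sum_of_subset_of_nonneg (filter_subset (fun p => lam < F p.1 p.2) (A ×ˢ I))
    fun p _ _ => hF _ _)
  rw [← nsmul_eq_mul]
  apply card_nsmul_le_sum
  intro p hp
  rw [mem_filter] at hp
  exact hp.2.le

/-! ### small values -/

/-- the number of the `n` of the window with a small value -/
noncomputable def nn (a : ℤ) (m H : ℕ) (κ : ℝ) : ℕ :=
  #((Ioc m (m + H)).filter (fun n : ℕ => (((n : ℤ) ^ 2 + a).natAbs : ℝ) < κ))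

lemma near_a (A : Finset ℤ) (c : ℤ) (κ : ℝ) (hκ : 0 ≤ κ) :
    (#(A.filter (fun a : ℤ => ((c + a).natAbs : ℝ) < κ)) : ℝ) ≤ 2 * κ + 1 := by
  have h1 : A.filter (fun a : ℤ => ((c + a).natAbs : ℝ) < κ) ⊆ Icc (-c - ⌊κ⌋₊) (-c + ⌊κ⌋₊) := by
    intro a ha
    rw [mem_filter] at ha
    have h2 : (c + a).natAbs ≤ ⌊κ⌋₊ := Nat.le_floor ha.2.le
    rw [mem_Icc]
    omega
  have h2 := card_le_card h1
  rw [Int.card_Icc] at h2
  have h3 : (-c + (⌊κ⌋₊ : ℤ) + 1 - (-c - (⌊κ⌋₊ : ℤ))).toNat = 2 * ⌊κ⌋₊ + 1 := by omega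
  rw [h3] at h2
  have h4 : (#(A.filter (fun a : ℤ => ((c + a).natAbs : ℝ) < κ)) : ℝ) ≤ 2 * (⌊κ⌋₊ : ℝ) + 1 := by exact_mod_cast h2
  have h5 := Nat.floor_le hκ
  linarith

lemma near (A : Finset ℤ) (m₀ M H : ℕ) (κ lam : ℝ) (hκ : 0 ≤ κ) (hl : 0 < lam) :
    (#((A ×ˢ Ioc m₀ (m₀ + M)).filter (fun p => lam < (nn p.1 p.2 H κ : ℝ))) : ℝ) ≤ M * (H * (2 * κ + 1)) / lam := by
  apply markov A (Ioc m₀ (m₀ + M)) (fun a m => (nn a m H κ : ℝ)) lam _ hl (fun _ _ => Nat.cast_nonneg _)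
  rw [sum_comm]
  have h1 : ∀ m ∈ Ioc m₀ (m₀ + M), ∑ a ∈ A, (nn a m H κ : ℝ) ≤ H * (2 * κ + 1) := by
    intro m _
    have e1 : ∑ a ∈ A, (nn a m H κ : ℝ) =
        ∑ n ∈ Ioc m (m + H), (#(A.filter (fun a : ℤ => (((n : ℤ) ^ 2 + a).natAbs : ℝ) < κ)) : ℝ) := by
      unfold nn
      simp_rw [card_filter]
      push_cast
      exact sum_comm
    rw [e1]
    refine (sum_le_sum fun n _ => near_a A _ κ hκ).trans (le_of_eq ?_)
    rw [sum_const, Nat.card_Ioc, nsmul_eq_mul, Nat.add_sub_cancel_left]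
  refine (sum_le_sum h1).trans (le_of_eq ?_)
  rw [sum_const, Nat.card_Ioc, nsmul_eq_mul, Nat.add_sub_cancel_left]

/-! ### the fundamental lemma -/

open Classical in
lemma lam_win (w : ℕ) (a : ℤ) (m H : ℕ) :
    ∑ n ∈ Ioc m (m + H), lamz w ((n : ℤ) ^ 2 + a).natAbs = (Vz w)⁻¹ *
      ((((Icc 1 H).filter (fun t : ℕ => ∀ p ∈ pz w, ¬ (p : ℤ) ∣ ((m : ℤ) + t) ^ 2 - (-a))).card : ℕ) : ℝ) := by
  have h1 : ∑ i ∈ Ioc m (m + H), lamz w ((i : ℤ) ^ 2 + a).natAbs =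
      ∑ t ∈ Icc 1 H, lamz w ((((m + t : ℕ) : ℤ)) ^ 2 + a).natAbs := by
    refine sum_nbij' (fun i => i - m) (fun t => m + t) ?_ ?_ ?_ ?_ ?_
    · intro i hi
      rw [mem_Ioc] at hi; rw [mem_Icc]; omega
    · intro t ht
      rw [mem_Icc] at ht; rw [mem_Ioc]; omega
    · intro i hi
      rw [mem_Ioc] at hi; omega
    · intro t ht
      omega
    · intro i hi
      rw [mem_Ioc] at hi
      show lamz w ((i : ℤ) ^ 2 + a).natAbs = lamz w ((((m + (i - m) : ℕ) : ℤ)) ^ 2 + a).natAbs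
      rw [show m + (i - m) = i by omega]
  rw [h1, card_filter]
  push_cast
  rw [mul_sum]
  refine sum_congr rfl fun t _ => ?_
  unfold lamz
  have h2 : (∀ p ∈ pz w, ¬ p ∣ (((m : ℤ) + t) ^ 2 + a).natAbs) ↔
      (∀ p ∈ pz w, ¬ (p : ℤ) ∣ ((m : ℤ) + t) ^ 2 - (-a)) := by
    have h3 : ∀ p : ℕ, (p ∣ (((m : ℤ) + t) ^ 2 + a).natAbs) ↔ ((p : ℤ) ∣ ((m : ℤ) + t) ^ 2 - (-a)) := by
      intro p
      rw [← Int.natCast_dvd, sub_neg_eq_add]
    constructor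
    · intro h p hp hd
      exact h p hp ((h3 p).2 hd)
    · intro h p hp hd
      exact h p hp ((h3 p).1 hd)
  by_cases h4 : ∀ p ∈ pz w, ¬ p ∣ (((m : ℤ) + t) ^ 2 + a).natAbs
  · rw [if_pos h4, if_pos (h2.1 h4), mul_one]
  · rw [if_neg h4, if_neg (fun h => h4 (h2.2 h)), mul_zero]

theorem fl : ∃ C1 y0 : ℕ, 1 ≤ C1 ∧ 2 ≤ y0 ∧ ∀ b : ℕ, C1 ≤ b → ∀ w : ℕ, y0 ≤ w → ∀ H : ℕ, w ^ (C1 * b) ≤ H →
    ∀ (a : ℤ) (m : ℕ), |∑ n ∈ Ioc m (m + H), lamz w ((n : ℤ) ^ 2 + a).natAbs - H * hprod a w| ≤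
      2 * (1 / 2 : ℝ) ^ b * hprod a w * H := by
  classical
  obtain ⟨C1, y0, hC1, hy0, h⟩ := flq
  refine ⟨C1, y0, hC1, hy0, fun b hb w hw H hH a m => ?_⟩
  have hV := Pool.Agent.TH892.OW.Vz_pos w
  have h1 := h b hb w hw H hH m (-a)
  rw [lam_win]
  have eH : HP (-a) w = hprod a w := rfl
  rw [eH] at h1
  set cd : ℝ := ((((Icc 1 H).filter (fun t : ℕ => ∀ p ∈ pz w, ¬ (p : ℤ) ∣ ((m : ℤ) + t) ^ 2 - (-a))).card : ℕ) : ℝ)
    with hcd
  have h2 : |cd - H * (Vz w * hprod a w)| ≤ 2 * (1 / 2 : ℝ) ^ b * (H * (Vz w * hprod a w)) := by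
    rw [hcd]; convert h1 using 6
  have e : (Vz w)⁻¹ * cd - H * hprod a w = (Vz w)⁻¹ * (cd - H * (Vz w * hprod a w)) := by
    field_simp
  rw [e, abs_mul, abs_of_pos (inv_pos.2 hV)]
  calc (Vz w)⁻¹ * |cd - H * (Vz w * hprod a w)| ≤ (Vz w)⁻¹ * (2 * (1 / 2 : ℝ) ^ b * (H * (Vz w * hprod a w))) :=
        mul_le_mul_of_nonneg_left h2 (inv_nonneg.2 hV.le)
    _ = _ := by field_simp

/-! ### the identities at one value -/

lemma wt_small {v : ℕ} (h : v < 2) : wt v = 0 := by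
  unfold wt
  interval_cases v <;> simp

lemma wt_le' (v : ℕ) : wt v ≤ 3 / 2 := by
  rcases Nat.lt_or_ge v 2 with h | h
  · rw [wt_small h]; norm_num
  · exact wt_le h

lemma ff_two (z : ℕ) (y : ℤ) : ff z (1 * y) + ff z (-1 * y) =
    (if y.natAbs.Prime then 1 else 0) - lamz z y.natAbs * wt y.natAbs := by
  have hsm : ∀ x : ℤ, x < 2 → ff z x = 0 := fun x hx => by unfold ff; rw [if_neg (by omega)]
  rcases lt_or_ge (y.natAbs) 2 with h | h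
  · rw [hsm _ (by omega), hsm _ (by omega), wt_small h, if_neg (fun hp => by have := hp.two_le; omega)]
    ring
  · rcases le_total 0 y with h0 | h0
    · rw [hsm (-1 * y) (by omega)]
      unfold ff
      rw [if_pos (by omega), show (1 * y).toNat = y.natAbs by omega]
      unfold ffn
      ring
    · rw [hsm (1 * y) (by omega)]
      unfold ff
      rw [if_pos (by omega), show (-1 * y).toNat = y.natAbs by omega]
      unfold ffn
      ring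

lemma lamz_zero {z : ℕ} (hz : 2 ≤ z) : lamz z 0 = 0 := by
  unfold lamz
  rw [if_neg]
  push Not
  exact ⟨2, mem_pz.2 ⟨hz, Nat.prime_two⟩, dvd_zero _⟩

lemma fz_two (w z : ℕ) (hw : 2 ≤ w) (hz : 2 ≤ z) (y : ℤ) : fz w z (1 * y) + fz w z (-1 * y) =
    lamz z y.natAbs - lamz w y.natAbs := by
  have hsm : ∀ x : ℤ, x < 1 → fz w z x = 0 := fun x hx => by
    unfold fz lz; rw [if_neg (by omega), if_neg (by omega), sub_zero]
  rcases lt_trichotomy y 0 with h0 | h0 | h0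
  · rw [hsm (1 * y) (by omega)]
    unfold fz lz
    rw [if_pos (by omega), if_pos (by omega), show (-1 * y).toNat = y.natAbs by omega]
    ring
  · rw [h0]
    rw [hsm _ (by omega), hsm _ (by omega)]
    simp [lamz_zero hw, lamz_zero hz]
  · rw [hsm (-1 * y) (by omega)]
    unfold fz lz
    rw [if_pos (by omega), if_pos (by omega), show (1 * y).toNat = y.natAbs by omega]
    ring

end Run7.h285.E3
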