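import Pool.Agent.Run7.h285.E3c
import Pool.Agent.Run7.h437.CR.HTG
import Pool.Agent.Run7.h437.CR.PW
import Pool.Agent.Run7.h437.CR.LZF
import Pool.Agent.Run7.h373.CR.Apm
import Pool.Agent.Run7.h373.CR.Fi
import Pool.Agent.Run7.h373.CR.Sia
import Pool.Agent.Run7.h373.CR.Lz
import Pool.Agent.Run7.h373.CR.Win
import Pool.Agent.Run7.h292.CR.SIC
import Pool.Agent.Run7.h292.CR.MOC
import Pool.Agent.Run7.h292.CR.FD
import Pool.Agent.Run7.h545.CR.DPL
import Pool.Agent.Run7.h545.CR.E1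
import Pool.Agent.Run7.h18.CR.Chr
import Pool.Agent.Run7.h18.CR.Lup

/-!
# Piece E of the project CR (helper757): all inputs
-/

set_option autoImplicit false

namespace Run7.h285.E3

/-- the theorem without hypotheses -/
theorem ee_all : S_EE := by
  have h1 := Run7.h437.CR.lzf Run7.h18.CR.lup
  have h2 := Run7.h292.CR.moc h1
  have h3 := Run7.h437.CR.pw Run7.h18.CR.chr h2
  have h4 := Run7.h545.CR.dpl h3 Run7.h18.CR.chr Run7.h292.CR.fd
  have h5 := Run7.h292.CR.sic h4 Run7.h373.CR.win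
  have h6 := Run7.h373.CR.sia h5
  have h7 := Run7.h373.CR.fi h6 Run7.h373.CR.lz
  have h8 := Run7.h373.CR.apm h7
  exact ee (Run7.h545.CR.e1 Run7.h285.E2.e0 h8) Run7.h285.E2.e2 Run7.h437.CR.hg

end Run7.h285.E3
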