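import Pool.Agent.Run7.h757.CR.App
import Pool.Agent.TH892.OW.B5a

/-!
# Pieces of the project CR (helper757): splitting of the second moment over pairs into blocks
-/

set_option autoImplicit false

namespace Run7.h285.Blk

open Finset Filter
open Run7.h757.CR (M2)

lemma M2_add (g : ℤ → ℝ) (s : ℤ) (X m₀ M1 M' H : ℕ) :
    M2 g s X m₀ (M1 + M') H = M2 g s X m₀ M1 H + M2 g s X (m₀ + M1) M' H := by
  unfold M2
  rw [← sum_add_distrib]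
  refine sum_congr rfl fun a _ => ?_
  rw [← Nat.add_assoc]
  exact (sum_Ioc_consecutive _ (by omega) (by omega)).symm

/-- bounds for short blocks give bounds for long ones -/
lemma M2_blocks (g : ℤ → ℝ) (s : ℤ) (X H a b : ℕ) (T W : ℝ) (hab : a ≤ b) (hb : 1 ≤ b)
    (h : ∀ m₀ M : ℕ, a ≤ M → M ≤ 2 * b → (m₀ : ℝ) + M ≤ W → M2 g s X m₀ M H ≤ M * T) :
    ∀ M m₀ : ℕ, a ≤ M → (m₀ : ℝ) + M ≤ W → M2 g s X m₀ M H ≤ M * T := by
  intro M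
  induction M using Nat.strong_induction_on with
  | _ M ih =>
    intro m₀ haM hW
    by_cases hM : M ≤ 2 * b
    · exact h m₀ M haM hM hW
    · push Not at hM
      obtain ⟨M', hM'⟩ : ∃ M', M = b + M' := ⟨M - b, by omega⟩
      have hc : (M : ℝ) = b + M' := by rw [hM']; push_cast; ring
      rw [hM', M2_add]
      have h1 := h m₀ b hab (by omega) (by
        have : (0 : ℝ) ≤ M' := Nat.cast_nonneg _
        linarith)
      have h2 := ih M' (by omega) (m₀ + b) (by omega) (by push_cast; linarith)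
      push_cast
      linarith

/-- the interval which contains the positive values -/
lemma range_uv (X m₀ M H : ℕ) (s : ℤ) (hs : s = 1 ∨ s = -1) (hX : 1 ≤ X) (hlen : (m₀ + M + H) ^ 2 ≤ m₀ ^ 2 + X) :
    ∃ u v : ℤ, 1 ≤ u ∧ u ≤ v ∧ #(Icc u v) ≤ 4 * X ∧ v ≤ ((m₀ : ℤ) + M + H) ^ 2 + X ∧
      ∀ a ∈ Icc (-(X : ℤ)) X, ∀ n ∈ Ioc m₀ (m₀ + M + H),
        s * ((n : ℤ) ^ 2 + a) ≤ 0 ∨ s * ((n : ℤ) ^ 2 + a) ∈ Icc u v := by
  have hlen' : ((m₀ : ℤ) + M + H) ^ 2 ≤ (m₀ : ℤ) ^ 2 + X := by exact_mod_cast hlen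
  have hX' : (1 : ℤ) ≤ X := by exact_mod_cast hX
  have hm0 : (0 : ℤ) ≤ (m₀ : ℤ) ^ 2 := by positivity
  have hN0 : (0 : ℤ) ≤ ((m₀ : ℤ) + M + H) ^ 2 := by positivity
  have hn : ∀ n ∈ Ioc m₀ (m₀ + M + H), (m₀ : ℤ) ^ 2 ≤ (n : ℤ) ^ 2 ∧ (n : ℤ) ^ 2 ≤ ((m₀ : ℤ) + M + H) ^ 2 := by
    intro n hn
    rw [mem_Ioc] at hn
    constructor
    · apply pow_le_pow_left₀ (by positivity)
      exact_mod_cast hn.1.le
    · apply pow_le_pow_left₀ (by positivity)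
      exact_mod_cast hn.2
  rcases hs with rfl | rfl
  · refine ⟨max 1 ((m₀ : ℤ) ^ 2 - X), ((m₀ : ℤ) + M + H) ^ 2 + X, le_max_left _ _, ?_, ?_, le_rfl, ?_⟩
    · apply max_le
      · linarith
      · have : (m₀ : ℤ) ^ 2 ≤ ((m₀ : ℤ) + M + H) ^ 2 := by
          apply pow_le_pow_left₀ (by positivity); linarith [(Nat.cast_nonneg M : (0:ℤ) ≤ M), (Nat.cast_nonneg H : (0:ℤ) ≤ H)]
        linarith
    · rw [Int.card_Icc]
      have h1 : (m₀ : ℤ) ^ 2 - X ≤ max 1 ((m₀ : ℤ) ^ 2 - X) := le_max_right _ _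
      have h2 : ((m₀ : ℤ) + M + H) ^ 2 + X + 1 - max 1 ((m₀ : ℤ) ^ 2 - X) ≤ 4 * X := by linarith
      omega
    · intro a ha n hn'
      obtain ⟨h1, h2⟩ := hn n hn'
      rw [mem_Icc] at ha
      by_cases h3 : 1 * ((n : ℤ) ^ 2 + a) ≤ 0
      · left; exact h3
      · right
        rw [mem_Icc]
        constructor
        · apply max_le
          · omega
          · linarith
        · linarith
  · refine ⟨1, max 1 ((X : ℤ) - m₀ ^ 2), le_rfl, le_max_left _ _, ?_, ?_, ?_⟩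
    · rw [Int.card_Icc]
      have h1 : max 1 ((X : ℤ) - m₀ ^ 2) ≤ X := max_le hX' (by linarith)
      omega
    · apply max_le <;> linarith
    · intro a ha n hn'
      obtain ⟨h1, h2⟩ := hn n hn'
      rw [mem_Icc] at ha
      by_cases h3 : -1 * ((n : ℤ) ^ 2 + a) ≤ 0
      · left; exact h3
      · right
        rw [mem_Icc]
        constructor
        · omega
        · refine le_trans ?_ (le_max_right _ _)
          linarith

/-- powers of `X ^ (1 / 16)` -/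
lemma xfacts (X : ℕ) (hX : 1 ≤ X) : ∃ x : ℝ, x = (X : ℝ) ^ (1 / 16 : ℝ) ∧ 1 ≤ x ∧ x ^ 16 = X ∧ x ^ 8 = √(X : ℝ) ∧
    (X : ℝ) ^ (1 / 3 : ℝ) ≤ x ^ 6 ∧ x ^ 5 ≤ (X : ℝ) ^ (1 / 3 : ℝ) := by
  have hX1 : (1 : ℝ) ≤ X := by exact_mod_cast hX
  have hX0 : (0 : ℝ) ≤ X := by linarith
  have e : ∀ n : ℕ, ((X : ℝ) ^ (1 / 16 : ℝ)) ^ n = (X : ℝ) ^ ((1 / 16 : ℝ) * n) := by
    intro n
    rw [Real.rpow_mul hX0, Real.rpow_natCast]
  refine ⟨_, rfl, Real.one_le_rpow hX1 (by norm_num), ?_, ?_, ?_, ?_⟩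
  · rw [e]; norm_num
  · rw [e, Real.sqrt_eq_rpow]; norm_num
  · rw [e]
    apply Real.rpow_le_rpow_of_exponent_le hX1; norm_num
  · rw [e]
    apply Real.rpow_le_rpow_of_exponent_le hX1; norm_num

/-- the parameters of the blocks -/
lemma block_par (C D : ℕ) : ∃ X0 : ℕ, ∀ X : ℕ, X0 ≤ X →
    (10000 : ℝ) ≤ Real.log X ∧ 1 ≤ X ∧ Real.log X ^ (C + D + 10) ≤ (X : ℝ) ^ (1 / 16 : ℝ) ∧
    ⌈(X : ℝ) ^ (1 / 3 : ℝ)⌉₊ ≤ ⌊√(X : ℝ) / Real.log X ^ (C + 3)⌋₊ ∧ 1 ≤ ⌊√(X : ℝ) / Real.log X ^ (C + 3)⌋₊ ∧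
    ∀ m₀ M H : ℕ, M ≤ 2 * ⌊√(X : ℝ) / Real.log X ^ (C + 3)⌋₊ → (H : ℝ) ≤ Real.log X ^ D →
      (m₀ : ℝ) + M ≤ √(X : ℝ) * Real.log X ^ C → (m₀ + M + H) ^ 2 ≤ m₀ ^ 2 + X ∧ (M : ℝ) ≤ √(X : ℝ) ∧
        ((m₀ : ℝ) + M + H) ^ 2 + X ≤ 5 * X * Real.log X ^ (2 * C) := by
  obtain ⟨X1, hX1⟩ := eventually_atTop.1 ((Pool.Agent.H442R2.EHI.evt_log_ge 10000).and
    (Pool.Agent.H442R2.EHI.evt_log_pow (C + D + 10) (1 / 16) (by norm_num)))
  refine ⟨max X1 1, fun X hX => ?_⟩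
  obtain ⟨hl, hlX⟩ := hX1 X (le_trans (le_max_left _ _) hX)
  have hX1 : 1 ≤ X := le_trans (le_max_right _ _) hX
  obtain ⟨x, hx, hx1, hx16, hx8, hx3, hx5⟩ := xfacts X hX1
  rw [← hx] at hlX ⊢
  rw [← hx8]
  have hx38 : x ^ 6 ≥ (X : ℝ) ^ (1 / 3 : ℝ) := hx3
  generalize Real.log X = l at *
  have hl0 : 0 < l := by linarith
  have hl1 : 1 ≤ l := by linarith
  have hx0 : 0 < x := by linarith
  have hlx : l ≤ x := (le_self_pow₀ hl1 (by omega)).trans hlX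
  have hlC3 : l ^ (C + 3) ≤ x := (pow_le_pow_right₀ hl1 (by omega)).trans hlX
  have hdiv : x ^ 7 ≤ x ^ 8 / l ^ (C + 3) := by
    rw [le_div_iff₀ (by positivity)]
    calc x ^ 7 * l ^ (C + 3) ≤ x ^ 7 * x := mul_le_mul_of_nonneg_left hlC3 (by positivity)
      _ = x ^ 8 := by ring
  have hfl : x ^ 7 - 1 < (⌊x ^ 8 / l ^ (C + 3)⌋₊ : ℝ) := by
    have := Nat.lt_floor_add_one (x ^ 8 / l ^ (C + 3))
    linarith
  have hx67 : x ^ 6 + 2 ≤ x ^ 7 := by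
    have h1 : 1 ≤ x ^ 6 := one_le_pow₀ hx1
    have h2 : x ^ 7 = x ^ 6 * x := by ring
    rw [h2]; nlinarith
  refine ⟨hl, hX1, hlX, ?_, ?_, ?_⟩
  · have h1 := Nat.ceil_lt_add_one (show (0 : ℝ) ≤ (X : ℝ) ^ (1 / 3 : ℝ) by positivity)
    have h2 : ((⌈(X : ℝ) ^ (1 / 3 : ℝ)⌉₊ : ℕ) : ℝ) ≤ (⌊x ^ 8 / l ^ (C + 3)⌋₊ : ℝ) := by linarith
    exact_mod_cast h2
  · have h1 : (1 : ℝ) ≤ (⌊x ^ 8 / l ^ (C + 3)⌋₊ : ℝ) := by
      have : (0 : ℝ) ≤ x ^ 6 := by positivity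
      linarith
    exact_mod_cast h1
  · intro m₀ M H hM hH hW
    have hM' : (M : ℝ) ≤ 2 * (x ^ 8 / l ^ (C + 3)) := by
      have h1 : (M : ℝ) ≤ 2 * (⌊x ^ 8 / l ^ (C + 3)⌋₊ : ℝ) := by exact_mod_cast hM
      have h2 := Nat.floor_le (show 0 ≤ x ^ 8 / l ^ (C + 3) by positivity)
      linarith
    have hH' : (H : ℝ) ≤ x ^ 8 / l ^ (C + 3) := by
      refine hH.trans ?_
      rw [le_div_iff₀ (by positivity), ← pow_add]
      calc l ^ (D + (C + 3)) ≤ l ^ (C + D + 10) := pow_le_pow_right₀ hl1 (by omega)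
        _ ≤ x := hlX
        _ ≤ x ^ 8 := le_self_pow₀ hx1 (by norm_num)
    have hlC : 0 < l ^ C := by positivity
    have hHs : (H : ℝ) ≤ x ^ 8 * l ^ C := by
      refine hH'.trans ?_
      rw [div_le_iff₀ (by positivity)]
      have : 1 ≤ l ^ C * l ^ (C + 3) := by
        rw [← pow_add]; exact one_le_pow₀ hl1
      calc x ^ 8 = x ^ 8 * 1 := (mul_one _).symm
        _ ≤ x ^ 8 * (l ^ C * l ^ (C + 3)) := mul_le_mul_of_nonneg_left this (by positivity)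
        _ = _ := by ring
    have hm0 : (0 : ℝ) ≤ m₀ := Nat.cast_nonneg _
    have hM0 : (0 : ℝ) ≤ M := Nat.cast_nonneg _
    have hH0 : (0 : ℝ) ≤ H := Nat.cast_nonneg _
    have h3 : ((m₀ : ℝ) + M + H) ^ 2 ≤ (m₀ : ℝ) ^ 2 + X := by
      have e1 : ((m₀ : ℝ) + M + H) ^ 2 = (m₀ : ℝ) ^ 2 + (M + H) * (2 * m₀ + M + H) := by ring
      rw [e1]
      have h4 : ((M : ℝ) + H) ≤ 3 * (x ^ 8 / l ^ (C + 3)) := by linarith
      have h5 : 2 * (m₀ : ℝ) + M + H ≤ 3 * (x ^ 8 * l ^ C) := by linarith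
      have h6 : ((M : ℝ) + H) * (2 * m₀ + M + H) ≤ 3 * (x ^ 8 / l ^ (C + 3)) * (3 * (x ^ 8 * l ^ C)) :=
        mul_le_mul h4 h5 (by positivity) (by positivity)
      have h7 : 3 * (x ^ 8 / l ^ (C + 3)) * (3 * (x ^ 8 * l ^ C)) = 9 * x ^ 16 / l ^ 3 := by
        rw [pow_add]; field_simp; norm_num
      have h8 : 9 * x ^ 16 / l ^ 3 ≤ X := by
        rw [hx16, div_le_iff₀ (by positivity)]
        have : 9 ≤ l ^ 3 := by
          have : l ≤ l ^ 3 := le_self_pow₀ hl1 (by norm_num)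
          linarith
        have hX0 : (0 : ℝ) ≤ X := Nat.cast_nonneg _
        nlinarith
      linarith
    refine ⟨by exact_mod_cast h3, ?_, ?_⟩
    · refine hM'.trans ?_
      rw [mul_div_assoc', div_le_iff₀ (by positivity), mul_comm]
      apply mul_le_mul_of_nonneg_left _ (by positivity)
      have : l ≤ l ^ (C + 3) := le_self_pow₀ hl1 (by omega)
      linarith
    · have hmW : (m₀ : ℝ) ^ 2 ≤ X * l ^ (2 * C) := by
        have h4 : (m₀ : ℝ) ≤ x ^ 8 * l ^ C := by linarith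
        calc (m₀ : ℝ) ^ 2 ≤ (x ^ 8 * l ^ C) ^ 2 := pow_le_pow_left₀ hm0 h4 2
          _ = x ^ 16 * l ^ (2 * C) := by ring
          _ = _ := by rw [hx16]
      have h5 : (X : ℝ) ≤ X * l ^ (2 * C) := by
        have h6 : 1 ≤ l ^ (2 * C) := one_le_pow₀ hl1
        have hX0 : (0 : ℝ) ≤ X := Nat.cast_nonneg _
        nlinarith
      nlinarith

end Run7.h285.Blk
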