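import Mathlib

/-!
# Piece E0 of the project CR (helper757): the second moment over pairs and sums over progressions
-/

set_option autoImplicit false

namespace Run7.h285.E0

open Finset

/-- `g` cut to the interval `[u, v]` -/
noncomputable def gJ (g : ℤ → ℝ) (u v k : ℤ) : ℝ := if k ∈ Icc u v then g k else 0

lemma gJ_of (g : ℤ → ℝ) {u v k : ℤ} (h : k ∈ Icc u v) : gJ g u v k = g k := by
  unfold gJ; rw [if_pos h]

lemma gJ_not (g : ℤ → ℝ) {u v k : ℤ} (h : k ∉ Icc u v) : gJ g u v k = 0 := by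
  unfold gJ; rw [if_neg h]

lemma gJ_abs (g : ℤ → ℝ) (G0 : ℝ) (h : ∀ k, |g k| ≤ G0) (u v k : ℤ) : |gJ g u v k| ≤ G0 := by
  unfold gJ
  split_ifs
  · exact h k
  · rw [abs_zero]; exact (abs_nonneg _).trans (h 0)

/-- the sum over `a` -/
lemma asum (g : ℤ → ℝ) (u v s x y : ℤ) (hs : s = 1 ∨ s = -1) (A : Finset ℤ)
    (hA : ∀ k ∈ Icc u v, s * k - x ∈ A) :
    ∑ a ∈ A, gJ g u v (s * (x + a)) * gJ g u v (s * (y + a)) =
      ∑ k ∈ Icc u v, g k * gJ g u v (k + s * (y - x)) := by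
  have hss : s * s = 1 := by rcases hs with h | h <;> rw [h] <;> norm_num
  symm
  apply sum_of_injOn (fun k => s * k - x)
  · intro k _ k' _ h
    simp only at h
    have h1 : s * k = s * k' := by linarith
    have h2 : s * (s * k) = s * (s * k') := by rw [h1]
    rw [← mul_assoc, ← mul_assoc, hss, one_mul, one_mul] at h2
    exact h2
  · intro k hk
    exact hA k hk
  · intro a _ ha
    have h1 : s * (x + a) ∉ Icc u v := by
      intro h1
      apply ha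
      refine ⟨s * (x + a), h1, ?_⟩
      show s * (s * (x + a)) - x = a
      rw [← mul_assoc, hss]; ring
    rw [gJ_not g h1, zero_mul]
  · intro k hk
    show g k * gJ g u v (k + s * (y - x)) = gJ g u v (s * (x + (s * k - x))) * gJ g u v (s * (y + (s * k - x)))
    have e1 : s * (x + (s * k - x)) = k := by
      calc s * (x + (s * k - x)) = s * s * k := by ring
        _ = k := by rw [hss, one_mul]
    have e2 : s * (y + (s * k - x)) = k + s * (y - x) := by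
      calc s * (y + (s * k - x)) = s * s * k + s * (y - x) := by ring
        _ = _ := by rw [hss, one_mul]
    rw [e1, e2, gJ_of g hk]

lemma msum1 (F : ℤ → ℝ) (m₀ M : ℕ) :
    ∑ m ∈ Ioc m₀ (m₀ + M), F (m : ℤ) = ∑ t ∈ Icc (1 : ℤ) M, F ((m₀ : ℤ) + t) := by
  refine sum_bij' (fun m _ => (m : ℤ) - m₀) (fun t _ => m₀ + t.toNat) ?_ ?_ ?_ ?_ ?_
  · intro m hm; rw [mem_Ioc] at hm; rw [mem_Icc]; omega
  · intro t ht; rw [mem_Icc] at ht; rw [mem_Ioc]; omega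
  · intro m hm; rw [mem_Ioc] at hm; omega
  · intro t ht; rw [mem_Icc] at ht; push_cast; omega
  · intro m hm; congr 1; omega

lemma msum2 (F : ℤ → ℝ) (m₀ M : ℕ) :
    ∑ m ∈ Ioc m₀ (m₀ + M), F (m : ℤ) = ∑ t ∈ Icc (1 : ℤ) M, F ((m₀ : ℤ) + M + 1 - t) := by
  refine sum_bij' (fun m _ => (m₀ : ℤ) + M + 1 - m) (fun t _ => ((m₀ : ℤ) + M + 1 - t).toNat) ?_ ?_ ?_ ?_ ?_
  · intro m hm; rw [mem_Ioc] at hm; rw [mem_Icc]; omega
  · intro t ht; rw [mem_Icc] at ht; rw [mem_Ioc]; omega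
  · intro m hm; rw [mem_Ioc] at hm; omega
  · intro t ht; rw [mem_Icc] at ht; rw [Int.toNat_of_nonneg (by omega)]; omega
  · intro m hm; congr 1; omega

/-- the core estimate -/
lemma core (g : ℤ → ℝ) (G0 R : ℝ) (M : ℕ) (u v : ℤ) (d : ℕ) (r : ℤ)
    (hG : ∀ k, |g k| ≤ G0)
    (hR : ∑ c ∈ (Icc (u - 2 * d) (v - 2 * d * M)).filter (fun c => c + d * r ∈ Icc u v),
      |g (c + d * r)| * |∑ t ∈ Icc (1 : ℤ) M, g (c + 2 * d * t)| ≤ R) :
    |∑ k ∈ Icc u v, g k * ∑ t ∈ Icc (1 : ℤ) M, gJ g u v (k - d * r + 2 * d * t)| ≤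
      R + 4 * d * (M : ℝ) ^ 2 * G0 ^ 2 := by
  have hG0 : 0 ≤ G0 := (abs_nonneg _).trans (hG 0)
  set f : ℤ → ℝ := fun k => |g k| * |∑ t ∈ Icc (1 : ℤ) M, gJ g u v (k - d * r + 2 * d * t)| with hf
  have hf0 : ∀ k, 0 ≤ f k := fun k => mul_nonneg (abs_nonneg _) (abs_nonneg _)
  have h1 : |∑ k ∈ Icc u v, g k * ∑ t ∈ Icc (1 : ℤ) M, gJ g u v (k - d * r + 2 * d * t)| ≤ ∑ k ∈ Icc u v, f k := by
    refine (abs_sum_le_sum_abs _ _).trans (le_of_eq ?_)
    exact sum_congr rfl fun k _ => abs_mul _ _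
  refine h1.trans ?_
  rw [← sum_filter_add_sum_filter_not (Icc u v) (fun k => k - d * r ∈ Icc (u - 2 * d) (v - 2 * d * M))]
  apply add_le_add
  · refine le_trans (le_of_eq ?_) hR
    refine sum_bij' (fun k _ => k - d * r) (fun c _ => c + d * r) ?_ ?_ ?_ ?_ ?_
    · intro k hk
      rw [mem_filter] at hk ⊢
      refine ⟨hk.2, ?_⟩
      rw [sub_add_cancel]; exact hk.1
    · intro c hc
      rw [mem_filter] at hc ⊢
      refine ⟨hc.2, ?_⟩
      rw [add_sub_cancel_right]; exact hc.1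
    · intro k _; ring
    · intro c _; ring
    · intro k hk
      rw [mem_filter, mem_Icc] at hk
      have hk2 := mem_Icc.1 hk.2
      rw [hf]
      simp only
      rw [sub_add_cancel]
      congr 2
      refine sum_congr rfl fun t ht => ?_
      apply gJ_of
      rw [mem_Icc] at ht ⊢
      have hd : (0 : ℤ) ≤ 2 * d := by positivity
      have h3 : 2 * (d : ℤ) * 1 ≤ 2 * d * t := mul_le_mul_of_nonneg_left ht.1 hd
      have h4 : 2 * (d : ℤ) * t ≤ 2 * d * M := mul_le_mul_of_nonneg_left ht.2 hd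
      constructor <;> linarith [hk2.1, hk2.2]
  · -- the boundary
    set B : Finset ℤ := (Ico (u - 2 * d * M) (u - 2 * d)).image (fun c => c + d * r) ∪
      (Ioc (v - 2 * d * M) (v - 2 * d)).image (fun c => c + d * r) with hB
    have hcard : (#B : ℝ) ≤ 4 * d * M := by
      have h2 : #B ≤ 2 * d * M + 2 * d * M := by
        refine (card_union_le _ _).trans ?_
        apply add_le_add
        · refine card_image_le.trans ?_
          rw [Int.card_Ico]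
          have : (u - 2 * (d : ℤ) - (u - 2 * d * M)) ≤ ((2 * d * M : ℕ) : ℤ) := by push_cast; linarith [(by positivity : (0 : ℤ) ≤ d)]
          omega
        · refine card_image_le.trans ?_
          rw [Int.card_Ioc]
          have : (v - 2 * (d : ℤ) - (v - 2 * d * M)) ≤ ((2 * d * M : ℕ) : ℤ) := by push_cast; linarith [(by positivity : (0 : ℤ) ≤ d)]
          omega
      have h3 : (#B : ℝ) ≤ ((2 * d * M + 2 * d * M : ℕ) : ℝ) := by exact_mod_cast h2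
      refine h3.trans (le_of_eq ?_)
      push_cast; ring
    have hfk : ∀ k, f k ≤ G0 * (M * G0) := by
      intro k
      apply mul_le_mul (hG k) _ (abs_nonneg _) hG0
      refine (abs_sum_le_sum_abs _ _).trans ((sum_le_sum fun t _ => gJ_abs g G0 hG u v _).trans ?_)
      rw [sum_const, nsmul_eq_mul, Int.card_Icc]
      apply le_of_eq
      congr 2
      omega
    have hz : ∀ k ∈ (Icc u v).filter (fun k => ¬ k - d * r ∈ Icc (u - 2 * d) (v - 2 * d * M)), k ∉ B → f k = 0 := by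
      intro k hk hkB
      rw [mem_filter] at hk
      have hk2 := hk.2
      rw [hf]
      simp only
      rw [sum_eq_zero, abs_zero, mul_zero]
      intro t ht
      apply gJ_not
      intro hc
      apply hkB
      rw [mem_Icc] at ht hc
      have hd : (0 : ℤ) ≤ 2 * d := by positivity
      have h3 : 2 * (d : ℤ) * 1 ≤ 2 * d * t := mul_le_mul_of_nonneg_left ht.1 hd
      have h4 : 2 * (d : ℤ) * t ≤ 2 * d * M := mul_le_mul_of_nonneg_left ht.2 hd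
      rw [hB, mem_union, mem_image, mem_image]
      by_cases h5 : k - d * r < u - 2 * d
      · left
        refine ⟨k - d * r, ?_, by ring⟩
        rw [mem_Ico]; constructor <;> linarith [hc.1]
      · right
        refine ⟨k - d * r, ?_, by ring⟩
        rw [mem_Ioc]
        constructor
        · by_contra h6
          apply hk2
          rw [mem_Icc]; constructor <;> linarith
        · linarith [hc.2]
    calc ∑ k ∈ (Icc u v).filter (fun k => ¬ k - d * r ∈ Icc (u - 2 * d) (v - 2 * d * M)), f k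
        ≤ ∑ k ∈ B, f k := by
          rw [← sum_filter_add_sum_filter_not _ (fun k => k ∈ B)]
          rw [sum_eq_zero (s := ((Icc u v).filter (fun k => ¬ k - d * r ∈ Icc (u - 2 * d) (v - 2 * d * M))).filter
            (fun k => ¬ k ∈ B)) (fun k hk => hz k (mem_filter.1 hk).1 (mem_filter.1 hk).2), add_zero]
          apply sum_le_sum_of_subset_of_nonneg
          · intro k hk; exact (mem_filter.1 hk).2
          · intro k _ _; exact hf0 k
      _ ≤ ∑ _k ∈ B, G0 * (M * G0) := sum_le_sum fun k _ => hfk k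
      _ = #B * (G0 * (M * G0)) := by rw [sum_const, nsmul_eq_mul]
      _ ≤ 4 * d * M * (G0 * (M * G0)) := mul_le_mul_of_nonneg_right hcard (by positivity)
      _ = 4 * d * (M : ℝ) ^ 2 * G0 ^ 2 := by ring

/-- the sum of the products over `m` and `a` -/
noncomputable def SS (g : ℤ → ℝ) (u v s : ℤ) (A : Finset ℤ) (m₀ M i j : ℕ) : ℝ :=
  ∑ m ∈ Ioc m₀ (m₀ + M), ∑ a ∈ A, gJ g u v (s * (((m : ℤ) + i) ^ 2 + a)) * gJ g u v (s * (((m : ℤ) + j) ^ 2 + a))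

lemma SS_comm (g : ℤ → ℝ) (u v s : ℤ) (A : Finset ℤ) (m₀ M i j : ℕ) :
    SS g u v s A m₀ M i j = SS g u v s A m₀ M j i := by
  unfold SS
  exact sum_congr rfl fun m _ => sum_congr rfl fun a _ => mul_comm _ _

lemma SS_eq (g : ℤ → ℝ) (u v s : ℤ) (hs : s = 1 ∨ s = -1) (A : Finset ℤ) (m₀ M i j : ℕ)
    (hA : ∀ m ∈ Ioc m₀ (m₀ + M), ∀ k ∈ Icc u v, s * k - ((m : ℤ) + i) ^ 2 ∈ A) :
    SS g u v s A m₀ M i j =
      ∑ k ∈ Icc u v, g k * ∑ m ∈ Ioc m₀ (m₀ + M), gJ g u v (k + s * ((((m : ℕ) : ℤ) + j) ^ 2 - ((m : ℤ) + i) ^ 2)) := by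
  unfold SS
  rw [sum_congr rfl fun m hm => asum g u v s _ _ hs A (hA m hm), sum_comm]
  exact sum_congr rfl fun k _ => (mul_sum _ _ _).symm

lemma SS_diag (g : ℤ → ℝ) (u v s : ℤ) (hs : s = 1 ∨ s = -1) (A : Finset ℤ) (m₀ M i : ℕ)
    (hA : ∀ m ∈ Ioc m₀ (m₀ + M), ∀ k ∈ Icc u v, s * k - ((m : ℤ) + i) ^ 2 ∈ A) :
    SS g u v s A m₀ M i i = M * ∑ k ∈ Icc u v, g k ^ 2 := by
  rw [SS_eq g u v s hs A m₀ M i i hA, mul_sum]
  refine sum_congr rfl fun k hk => ?_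
  simp only [sub_self, mul_zero, add_zero]
  rw [gJ_of g hk, sum_const, nsmul_eq_mul, Nat.card_Ioc, Nat.add_sub_cancel_left]
  ring

lemma SS_off (g : ℤ → ℝ) (G0 R : ℝ) (u v s : ℤ) (hs : s = 1 ∨ s = -1) (A : Finset ℤ) (m₀ M H i j : ℕ)
    (hG : ∀ k, |g k| ≤ G0) (hi : i ∈ Icc 1 H) (hj : j ∈ Icc 1 H) (hij : i < j)
    (hA : ∀ m ∈ Ioc m₀ (m₀ + M), ∀ k ∈ Icc u v, s * k - ((m : ℤ) + i) ^ 2 ∈ A)
    (hR : ∀ d ∈ Icc 1 H, ∀ r : ℤ,
      ∑ c ∈ (Icc (u - 2 * d) (v - 2 * d * M)).filter (fun c => c + d * r ∈ Icc u v),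
        |g (c + d * r)| * |∑ t ∈ Icc (1 : ℤ) M, g (c + 2 * d * t)| ≤ R) :
    |SS g u v s A m₀ M i j| ≤ R + 4 * H * (M : ℝ) ^ 2 * G0 ^ 2 := by
  rw [mem_Icc] at hi hj
  set d : ℕ := j - i with hd
  have hdz : (d : ℤ) = (j : ℤ) - i := by omega
  have hdm : d ∈ Icc 1 H := by rw [mem_Icc]; omega
  have hdH : (d : ℝ) ≤ H := by exact_mod_cast (mem_Icc.1 hdm).2
  have hfin : R + 4 * d * (M : ℝ) ^ 2 * G0 ^ 2 ≤ R + 4 * H * (M : ℝ) ^ 2 * G0 ^ 2 := by
    have : 4 * (d : ℝ) * (M : ℝ) ^ 2 * G0 ^ 2 ≤ 4 * H * (M : ℝ) ^ 2 * G0 ^ 2 := by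
      apply mul_le_mul_of_nonneg_right _ (sq_nonneg _)
      apply mul_le_mul_of_nonneg_right _ (sq_nonneg _)
      linarith
    linarith
  refine le_trans ?_ hfin
  rw [SS_eq g u v s hs A m₀ M i j hA]
  rcases hs with rfl | rfl
  · have h1 := core g G0 R M u v d (-(2 * m₀ + i + j)) hG (hR d hdm _)
    have h2 : ∀ k : ℤ, ∑ m ∈ Ioc m₀ (m₀ + M), gJ g u v (k + 1 * ((((m : ℕ) : ℤ) + j) ^ 2 - ((m : ℤ) + i) ^ 2)) =
        ∑ t ∈ Icc (1 : ℤ) M, gJ g u v (k - d * (-(2 * m₀ + i + j)) + 2 * d * t) := by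
      intro k
      rw [msum1 (fun x => gJ g u v (k + 1 * ((x + j) ^ 2 - (x + i) ^ 2)))]
      refine sum_congr rfl fun t _ => ?_
      congr 1
      rw [hdz]; ring
    simp_rw [h2]
    exact h1
  · have h1 := core g G0 R M u v d (2 * m₀ + 2 * (M + 1) + i + j) hG (hR d hdm _)
    have h2 : ∀ k : ℤ, ∑ m ∈ Ioc m₀ (m₀ + M), gJ g u v (k + -1 * ((((m : ℕ) : ℤ) + j) ^ 2 - ((m : ℤ) + i) ^ 2)) =
        ∑ t ∈ Icc (1 : ℤ) M, gJ g u v (k - d * (2 * m₀ + 2 * (M + 1) + i + j) + 2 * d * t) := by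
      intro k
      rw [msum2 (fun x => gJ g u v (k + -1 * ((x + j) ^ 2 - (x + i) ^ 2)))]
      refine sum_congr rfl fun t _ => ?_
      congr 1
      rw [hdz]; ring
    simp_rw [h2]
    exact h1

lemma win (F : ℤ → ℝ) (m H : ℕ) : ∑ n ∈ Ioc m (m + H), F (n : ℤ) = ∑ i ∈ Icc 1 H, F ((m : ℤ) + (i : ℕ)) := by
  refine sum_bij' (fun n _ => n - m) (fun i _ => m + i) ?_ ?_ ?_ ?_ ?_
  · intro n hn; rw [mem_Ioc] at hn; rw [mem_Icc]; omega
  · intro i hi; rw [mem_Icc] at hi; rw [mem_Ioc]; omega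
  · intro n hn; rw [mem_Ioc] at hn; omega
  · intro i hi; omega
  · intro n hn
    rw [mem_Ioc] at hn
    congr 1
    omega

/-- **E0** -/
theorem e0 (g : ℤ → ℝ) (G0 R : ℝ) (s : ℤ) (X m₀ M H : ℕ) (u v : ℤ) (hg0 : ∀ k, k ≤ 0 → g k = 0)
    (hG : ∀ k, |g k| ≤ G0) (hs : s = 1 ∨ s = -1) (hu : 1 ≤ u) (huv : u ≤ v) (hR0 : 0 ≤ R)
    (hval : ∀ a ∈ Icc (-(X : ℤ)) X, ∀ n ∈ Ioc m₀ (m₀ + M + H),
      s * ((n : ℤ) ^ 2 + a) ≤ 0 ∨ s * ((n : ℤ) ^ 2 + a) ∈ Icc u v)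
    (hR : ∀ d ∈ Icc 1 H, ∀ r : ℤ,
      ∑ c ∈ (Icc (u - 2 * d) (v - 2 * d * M)).filter (fun c => c + d * r ∈ Icc u v),
        |g (c + d * r)| * |∑ t ∈ Icc (1 : ℤ) M, g (c + 2 * d * t)| ≤ R) :
    ∑ a ∈ Icc (-(X : ℤ)) X, ∑ m ∈ Ioc m₀ (m₀ + M), (∑ n ∈ Ioc m (m + H), g (s * ((n : ℤ) ^ 2 + a))) ^ 2 ≤
      H * M * (∑ k ∈ Icc u v, g k ^ 2) + 8 * (H : ℝ) ^ 3 * (M : ℝ) ^ 2 * G0 ^ 2 + (H : ℝ) ^ 2 * R := by
  have hG0 : 0 ≤ G0 := (abs_nonneg _).trans (hG 0)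
  set Z : ℤ := (X : ℤ) + v + ((m₀ : ℤ) + M + H) ^ 2 with hZ
  set A : Finset ℤ := Icc (-Z) Z with hA
  have hZX : (X : ℤ) ≤ Z := by
    rw [hZ]; linarith [sq_nonneg ((m₀ : ℤ) + M + H)]
  have hAk : ∀ i ∈ Icc 1 H, ∀ m ∈ Ioc m₀ (m₀ + M), ∀ k ∈ Icc u v, s * k - ((m : ℤ) + (i : ℕ)) ^ 2 ∈ A := by
    intro i hi m hm k hk
    rw [mem_Icc] at hi hk
    rw [mem_Ioc] at hm
    have h1 : ((m : ℤ) + i) ^ 2 ≤ ((m₀ : ℤ) + M + H) ^ 2 := by
      apply pow_le_pow_left₀ (by positivity)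
      have : m + i ≤ m₀ + M + H := by omega
      exact_mod_cast this
    have h2 := sq_nonneg ((m : ℤ) + i)
    rw [hA, mem_Icc, hZ]
    rcases hs with rfl | rfl
    · constructor
      · have : (0 : ℤ) ≤ X := by positivity
        linarith
      · have : (0 : ℤ) ≤ X := by positivity
        linarith [sq_nonneg ((m₀ : ℤ) + M + H)]
    · constructor
      · have : (0 : ℤ) ≤ X := by positivity
        linarith
      · have : (0 : ℤ) ≤ X := by positivity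
        linarith [sq_nonneg ((m₀ : ℤ) + M + H)]
  -- replace g by gJ and enlarge the range of `a`
  have h1 : ∑ a ∈ Icc (-(X : ℤ)) X, ∑ m ∈ Ioc m₀ (m₀ + M), (∑ n ∈ Ioc m (m + H), g (s * ((n : ℤ) ^ 2 + a))) ^ 2 ≤
      ∑ a ∈ A, ∑ m ∈ Ioc m₀ (m₀ + M), (∑ i ∈ Icc 1 H, gJ g u v (s * (((m : ℤ) + (i : ℕ)) ^ 2 + a))) ^ 2 := by
    have h2 : ∀ a ∈ Icc (-(X : ℤ)) X,
        ∑ m ∈ Ioc m₀ (m₀ + M), (∑ n ∈ Ioc m (m + H), g (s * ((n : ℤ) ^ 2 + a))) ^ 2 =
        ∑ m ∈ Ioc m₀ (m₀ + M), (∑ i ∈ Icc 1 H, gJ g u v (s * (((m : ℤ) + (i : ℕ)) ^ 2 + a))) ^ 2 := by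
      intro a ha
      refine sum_congr rfl fun m hm => ?_
      rw [← win (fun x => gJ g u v (s * (x ^ 2 + a)))]
      congr 1
      refine sum_congr rfl fun n hn => ?_
      rw [mem_Ioc] at hm hn
      rcases hval a ha n (mem_Ioc.2 ⟨by omega, by omega⟩) with h | h
      · rw [hg0 _ h, gJ_not]
        rw [mem_Icc]; intro hc; linarith [hc.1]
      · rw [gJ_of g h]
    rw [sum_congr rfl h2]
    apply sum_le_sum_of_subset_of_nonneg
    · intro a ha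
      rw [mem_Icc] at ha
      rw [hA, mem_Icc]; constructor <;> linarith [ha.1, ha.2]
    · intro a _ _
      exact sum_nonneg fun m _ => sq_nonneg _
  have h3 : ∑ a ∈ A, ∑ m ∈ Ioc m₀ (m₀ + M), (∑ i ∈ Icc 1 H, gJ g u v (s * (((m : ℤ) + (i : ℕ)) ^ 2 + a))) ^ 2 =
      ∑ i ∈ Icc 1 H, ∑ j ∈ Icc 1 H, SS g u v s A m₀ M i j := by
    unfold SS
    rw [sum_comm]
    have h4 : ∀ m ∈ Ioc m₀ (m₀ + M), ∑ a ∈ A, (∑ i ∈ Icc 1 H, gJ g u v (s * (((m : ℤ) + (i : ℕ)) ^ 2 + a))) ^ 2 =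
        ∑ i ∈ Icc 1 H, ∑ j ∈ Icc 1 H, ∑ a ∈ A, gJ g u v (s * (((m : ℤ) + (i : ℕ)) ^ 2 + a)) *
          gJ g u v (s * (((m : ℤ) + (j : ℕ)) ^ 2 + a)) := by
      intro m _
      simp_rw [sq (∑ i ∈ Icc 1 H, _), sum_mul_sum]
      rw [sum_comm]
      exact sum_congr rfl fun i _ => sum_comm
    rw [sum_congr rfl h4, sum_comm]
    exact sum_congr rfl fun i _ => sum_comm
  rw [h3] at h1
  refine h1.trans ?_
  set O : ℝ := R + 4 * H * (M : ℝ) ^ 2 * G0 ^ 2 with hO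
  have hO0 : 0 ≤ O := by rw [hO]; positivity
  set D : ℝ := M * ∑ k ∈ Icc u v, g k ^ 2 with hD
  have h5 : ∀ i ∈ Icc 1 H, ∑ j ∈ Icc 1 H, SS g u v s A m₀ M i j ≤ D + H * O := by
    intro i hi
    rw [← add_sum_erase _ _ hi]
    apply add_le_add
    · exact (SS_diag g u v s hs A m₀ M i (hAk i hi)).le
    · calc ∑ j ∈ (Icc 1 H).erase i, SS g u v s A m₀ M i j ≤ ∑ _j ∈ (Icc 1 H).erase i, O := by
            refine sum_le_sum fun j hj => ?_
            rw [mem_erase] at hj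
            rcases lt_or_gt_of_ne hj.1 with h | h
            · rw [SS_comm]
              exact (le_abs_self _).trans (SS_off g G0 R u v s hs A m₀ M H j i hG hj.2 hi h (hAk j hj.2) hR)
            · exact (le_abs_self _).trans (SS_off g G0 R u v s hs A m₀ M H i j hG hi hj.2 h (hAk i hi) hR)
        _ = #((Icc 1 H).erase i) * O := by rw [sum_const, nsmul_eq_mul]
        _ ≤ H * O := by
            apply mul_le_mul_of_nonneg_right _ hO0
            have : #((Icc 1 H).erase i) ≤ H := by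
              refine (card_le_card (erase_subset _ _)).trans ?_
              rw [Nat.card_Icc]; omega
            exact_mod_cast this
  calc ∑ i ∈ Icc 1 H, ∑ j ∈ Icc 1 H, SS g u v s A m₀ M i j ≤ ∑ _i ∈ Icc 1 H, (D + H * O) := sum_le_sum h5
    _ = H * (D + H * O) := by rw [sum_const, nsmul_eq_mul, Nat.card_Icc, Nat.add_sub_cancel]
    _ = H * M * (∑ k ∈ Icc u v, g k ^ 2) + 4 * (H : ℝ) ^ 3 * (M : ℝ) ^ 2 * G0 ^ 2 + (H : ℝ) ^ 2 * R := by
        rw [hD, hO]; ring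
    _ ≤ _ := by
        have : 0 ≤ (H : ℝ) ^ 3 * (M : ℝ) ^ 2 * G0 ^ 2 := by positivity
        linarith

end Run7.h285.E0
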