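import Pool.Agent.TH892.OW.B3

/-!
# Piece E2 of the project CR (helper757), first part: sums of the difference of two sieve models over progressions
-/

set_option autoImplicit false

namespace Run7.h285.E2

open Finset
open Pool.Agent.H373R2.T7 (pz Vz lamz mem_pz Vz_ge Vz_inv_le Vz_le_one Vz_inv_small)
open Pool.Agent.TH892.OW

/-- the two facts about the sieve model with common constants -/
def Both (C1 b y : ℕ) : Prop := ∀ (A : Finset ℤ), (∀ x ∈ A, ∀ y ∈ A, ∀ t, x ≤ t → t ≤ y → t ∈ A) →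
    (∑ s ∈ A, lz y s ≤ 2 * #A + (y : ℝ) ^ (C1 * b)) ∧ ∀ (c q : ℤ), (∀ s ∈ A, 1 ≤ c + q * s) →
    |∑ s ∈ A, lz y (c + q * s) - #A * Gz y c q| ≤ (1 / 2 : ℝ) ^ b * (#A * Gz y c q) + (y : ℝ) ^ (C1 * b)

theorem both : ∃ C1 y0 : ℕ, 1 ≤ C1 ∧ 2 ≤ y0 ∧ ∀ b : ℕ, C1 ≤ b → ∀ y : ℕ, y0 ≤ y → Both C1 b y := by
  obtain ⟨C1, y0, hC1, hy0, h1⟩ := lz_ap
  obtain ⟨C2, y2, hC2, hy2, h2⟩ := lz_up
  refine ⟨C1 + C2, y0 + y2, by omega, by omega, fun b hb y hy A hA => ?_⟩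
  have hy1 : (1 : ℝ) ≤ y := by exact_mod_cast (by omega : 1 ≤ y)
  have e1 : (y : ℝ) ^ (C1 * b) ≤ (y : ℝ) ^ ((C1 + C2) * b) := by
    apply pow_le_pow_right₀ hy1; nlinarith
  have e2 : (y : ℝ) ^ (C2 * b) ≤ (y : ℝ) ^ ((C1 + C2) * b) := by
    apply pow_le_pow_right₀ hy1; nlinarith
  refine ⟨?_, fun c q hpos => ?_⟩
  · have := h2 b (by omega) y (by omega) A hA
    linarith
  · have := h1 b (by omega) y (by omega) A hA c q hpos
    linarith

lemma conv (x y : ℤ) : ∀ a ∈ Icc x y, ∀ b ∈ Icc x y, ∀ t, a ≤ t → t ≤ b → t ∈ Icc x y := by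
  intro a ha b hb t h1 h2
  rw [mem_Icc] at ha hb ⊢
  constructor <;> linarith [ha.1, hb.2]

/-- multiples in an interval -/
lemma cnt (p : ℕ) (hp : 1 ≤ p) (u v : ℤ) :
    (#((Icc u v).filter (fun k : ℤ => (p : ℤ) ∣ k)) : ℝ) ≤ (#(Icc u v) : ℝ) / p + 1 := by
  have hp0 : (0 : ℤ) < p := by exact_mod_cast hp
  have e0 : Icc u v = Ioc (u - 1) v := by ext t; rw [mem_Icc, mem_Ioc]; omega
  have h2 := Int.Ioc_filter_dvd_card (u - 1) v hp0
  have hpq : (0 : ℚ) < p := by exact_mod_cast hp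
  have h3 : ((#((Ioc (u - 1) v).filter (fun k : ℤ => (p : ℤ) ∣ k)) : ℕ) : ℚ) ≤ (#(Icc u v) : ℚ) / p + 1 := by
    have h4 : ((#((Ioc (u - 1) v).filter (fun k : ℤ => (p : ℤ) ∣ k)) : ℕ) : ℚ) =
        ((#((Ioc (u - 1) v).filter (fun k : ℤ => (p : ℤ) ∣ k)) : ℤ) : ℚ) := by push_cast; rfl
    rw [h4, h2]
    have h0 : (0 : ℚ) ≤ (#(Icc u v) : ℚ) / p + 1 := by positivity
    rw [Int.cast_max]
    apply max_le
    · push_cast
      have h5 := Int.floor_le ((v : ℚ) / (p : ℚ))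
      have h6 := Int.lt_floor_add_one (((u : ℚ) - 1) / (p : ℚ))
      have h8 : (v : ℚ) - (u - 1) ≤ #(Icc u v) := by
        rw [Int.card_Icc]
        have : v + 1 - u ≤ ((v + 1 - u).toNat : ℤ) := Int.self_le_toNat _
        have h9 : ((v + 1 - u : ℤ) : ℚ) ≤ (((v + 1 - u).toNat : ℤ) : ℚ) := by exact_mod_cast this
        push_cast at h9 ⊢
        linarith
      have h7 : (v : ℚ) / p - ((u : ℚ) - 1) / p ≤ (#(Icc u v) : ℚ) / p := by
        rw [← sub_div]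
        exact div_le_div_of_nonneg_right h8 hpq.le
      push_cast at h5 h6 ⊢
      linarith
    · push_cast; exact h0
  rw [e0] at h3 ⊢
  have h9 := (Rat.cast_le (K := ℝ)).2 h3
  push_cast at h9
  exact h9

/-- a sum of nonnegative terms over shifted numbers -/
lemma shift_le (F : ℤ → ℝ) (hF : ∀ k, 0 ≤ F k) (S : Finset ℤ) (a u v : ℤ) (hS : ∀ c ∈ S, c + a ∈ Icc u v) :
    ∑ c ∈ S, F (c + a) ≤ ∑ k ∈ Icc u v, F k := by
  rw [← sum_image (f := F) (g := fun c => c + a) (fun x _ y _ h => by simpa using h)]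
  apply sum_le_sum_of_subset_of_nonneg
  · intro k hk
    rw [mem_image] at hk
    obtain ⟨c, hc, rfl⟩ := hk
    exact hS c hc
  · intro k _ _; exact hF k

open Classical in
theorem off1 (C1 b w z : ℕ) (hw2 : 2 ≤ w) (hwz : w ≤ z) (hbw : Both C1 b w) (hbz : Both C1 b z) (u v : ℤ)
    (hu : 1 ≤ u) (M d k : ℕ) (hd : 1 ≤ d) (hk : Nat.log 2 (2 * d) ≤ k) (hkw : 2 * k ≤ w) (r : ℤ) :
    ∑ c ∈ (Icc (u - 2 * d) (v - 2 * d * M)).filter (fun c => c + d * r ∈ Icc u v),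
      |fz w z (c + d * r)| * |∑ t ∈ Icc (1 : ℤ) M, fz w z (c + 2 * d * t)| ≤
    (2 * (2 * (#(Icc u v) : ℝ) + (z : ℝ) ^ (C1 * b))) * (M * ((Vz w)⁻¹ * (4 * k / w) + 2 * (1 / 2) ^ b * (Vz z)⁻¹)) +
      #(Icc u v) * ((Vz z)⁻¹ * (2 * (z : ℝ) ^ (C1 * b))) +
      M * ((Vz w)⁻¹ * ((Vz w)⁻¹ * (k * ((#(Icc u v) : ℝ) / w + 1)))) := by
  have hw1 : 1 ≤ w := by omega
  have hz1 : (1 : ℝ) ≤ z := by exact_mod_cast hw1.trans hwz
  have hwr : (1 : ℝ) ≤ w := by exact_mod_cast hw1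
  have hwz' : (w : ℝ) ≤ z := by exact_mod_cast hwz
  have hVw : 0 < (Vz w)⁻¹ := inv_pos.2 (Vz_pos w)
  have hVz : 0 < (Vz z)⁻¹ := inv_pos.2 (Vz_pos z)
  have hVwz := Vz_anti hwz
  obtain ⟨q, hq⟩ : ∃ q : ℤ, q = 2 * (d : ℤ) := ⟨_, rfl⟩
  have hq0 : 0 < q := by rw [hq]; omega
  have hlogq : Nat.log 2 q.natAbs ≤ k := by
    refine le_trans (Nat.log_mono_right ?_) hk
    rw [hq]; omega
  obtain ⟨Z, hZ⟩ : ∃ Z, Z = (z : ℝ) ^ (C1 * b) := ⟨_, rfl⟩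
  have hZ0 : 0 ≤ Z := by rw [hZ]; positivity
  have hZw : (w : ℝ) ^ (C1 * b) ≤ Z := by rw [hZ]; exact pow_le_pow_left₀ (by positivity) hwz' _
  rw [← hZ]
  have hpb : (0 : ℝ) < (1 / 2) ^ b := by positivity
  set J := Icc u v with hJ
  set S := (Icc (u - 2 * d) (v - 2 * d * M)).filter (fun c => c + d * r ∈ J) with hS
  have hM0 : (0 : ℝ) ≤ M := Nat.cast_nonneg _
  have hcM : (#(Icc (1 : ℤ) M) : ℝ) = M := by
    rw [Int.card_Icc, add_sub_cancel_right, Int.toNat_natCast]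
  -- inner sums
  have hin : ∀ c ∈ S, |∑ t ∈ Icc (1 : ℤ) M, fz w z (c + 2 * d * t)| ≤
      M * ((Vz w)⁻¹ * (4 * k / w) + 2 * (1 / 2) ^ b * (Vz z)⁻¹) + 2 * Z +
      (if ∃ p ∈ pz z, w < p ∧ (p : ℤ) ∣ c ∧ (p : ℤ) ∣ q then (Vz w)⁻¹ * M else 0) := by
    intro c hc
    rw [hS, mem_filter, mem_Icc] at hc
    have hpos : ∀ t ∈ Icc (1 : ℤ) M, 1 ≤ c + q * t := by
      intro t ht
      rw [mem_Icc] at ht
      have h3 : q * 1 ≤ q * t := mul_le_mul_of_nonneg_left ht.1 hq0.le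
      rw [hq] at h3 ⊢
      linarith [hc.1.1]
    have hz' := (hbz _ (conv 1 M)).2 c q hpos
    have hw' := (hbw _ (conv 1 M)).2 c q hpos
    have hG := Gdiff w z hwz hw1 c q hq0.ne' k hlogq hkw
    rw [hcM] at hz' hw'
    rw [← hZ] at hz'
    have e1 : ∑ t ∈ Icc (1 : ℤ) M, fz w z (c + 2 * d * t) =
        (∑ t ∈ Icc (1 : ℤ) M, lz z (c + q * t) - M * Gz z c q) -
        (∑ t ∈ Icc (1 : ℤ) M, lz w (c + q * t) - M * Gz w c q) + M * (Gz z c q - Gz w c q) := by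
      unfold fz
      rw [hq, sum_sub_distrib]
      ring
    rw [e1]
    refine (abs_add_le _ _).trans ?_
    have h3 : |(M : ℝ) * (Gz z c q - Gz w c q)| ≤ M * ((Vz w)⁻¹ * (4 * k / w +
      (if ∃ p ∈ pz z, w < p ∧ (p : ℤ) ∣ c ∧ (p : ℤ) ∣ q then 1 else 0))) := by
      rw [abs_mul, abs_of_nonneg hM0]
      exact mul_le_mul_of_nonneg_left hG hM0
    have h4 : (M : ℝ) * ((Vz w)⁻¹ * (4 * k / w +
      (if ∃ p ∈ pz z, w < p ∧ (p : ℤ) ∣ c ∧ (p : ℤ) ∣ q then 1 else 0))) = M * ((Vz w)⁻¹ * (4 * k / w)) +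
      (if ∃ p ∈ pz z, w < p ∧ (p : ℤ) ∣ c ∧ (p : ℤ) ∣ q then (Vz w)⁻¹ * M else 0) := by
      split_ifs <;> ring
    rw [h4] at h3
    have h5 := abs_sub (∑ t ∈ Icc (1 : ℤ) M, lz z (c + q * t) - M * Gz z c q)
      (∑ t ∈ Icc (1 : ℤ) M, lz w (c + q * t) - M * Gz w c q)
    have h6 : (1 / 2 : ℝ) ^ b * (M * Gz z c q) ≤ (1 / 2 : ℝ) ^ b * (M * (Vz z)⁻¹) :=
      mul_le_mul_of_nonneg_left (mul_le_mul_of_nonneg_left (Gz_le z c q) hM0) hpb.le
    have h7 : (1 / 2 : ℝ) ^ b * (M * Gz w c q) ≤ (1 / 2 : ℝ) ^ b * (M * (Vz z)⁻¹) :=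
      mul_le_mul_of_nonneg_left (mul_le_mul_of_nonneg_left ((Gz_le w c q).trans hVwz) hM0) hpb.le
    have h8 : (M : ℝ) * ((Vz w)⁻¹ * (4 * k / w) + 2 * (1 / 2) ^ b * (Vz z)⁻¹) =
        M * ((Vz w)⁻¹ * (4 * k / w)) + (1 / 2 : ℝ) ^ b * (M * (Vz z)⁻¹) + (1 / 2 : ℝ) ^ b * (M * (Vz z)⁻¹) := by ring
    rw [h8]
    linarith
  -- products
  have hstep : ∀ c ∈ S, |fz w z (c + d * r)| * |∑ t ∈ Icc (1 : ℤ) M, fz w z (c + 2 * d * t)| ≤
      |fz w z (c + d * r)| * (M * ((Vz w)⁻¹ * (4 * k / w) + 2 * (1 / 2) ^ b * (Vz z)⁻¹)) +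
      (Vz z)⁻¹ * (2 * Z) + (Vz w)⁻¹ * ((Vz w)⁻¹ * (M * ∑ p ∈ (pz z).filter (fun p : ℕ => w < p ∧ (p : ℤ) ∣ q),
        (if (p : ℤ) ∣ (c + d * r) then (1 : ℝ) else 0))) := by
    intro c hc
    have h3 := mul_le_mul_of_nonneg_left (hin c hc) (abs_nonneg (fz w z (c + d * r)))
    refine h3.trans ?_
    rw [mul_add, mul_add]
    have h4 : |fz w z (c + d * r)| * (2 * Z) ≤ (Vz z)⁻¹ * (2 * Z) :=
      mul_le_mul_of_nonneg_right (fz_abs w z hwz _) (by positivity)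
    have h5 : |fz w z (c + d * r)| * (if ∃ p ∈ pz z, w < p ∧ (p : ℤ) ∣ c ∧ (p : ℤ) ∣ q then (Vz w)⁻¹ * M else 0) ≤
        (Vz w)⁻¹ * ((Vz w)⁻¹ * (M * ∑ p ∈ (pz z).filter (fun p : ℕ => w < p ∧ (p : ℤ) ∣ q),
        (if (p : ℤ) ∣ (c + d * r) then (1 : ℝ) else 0))) := by
      have hs0 : 0 ≤ ∑ p ∈ (pz z).filter (fun p : ℕ => w < p ∧ (p : ℤ) ∣ q),
          (if (p : ℤ) ∣ (c + d * r) then (1 : ℝ) else 0) := by
        apply sum_nonneg; intro p _; split_ifs <;> norm_num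
      split_ifs with hcc
      · obtain ⟨p, hp, hwp, hpc, hpq⟩ := hcc
        have hpp := (mem_pz.1 hp).2
        have hpd : (p : ℤ) ∣ (d : ℤ) := by
          rw [hq] at hpq
          rcases (Nat.prime_iff_prime_int.1 hpp).dvd_or_dvd hpq with h6 | h6
          · exfalso
            have h7 : p ∣ 2 := by exact_mod_cast h6
            have := Nat.le_of_dvd (by norm_num) h7
            omega
          · exact h6
        have hpu : (p : ℤ) ∣ c + d * r := dvd_add hpc (hpd.mul_right r)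
        rw [hS, mem_filter, hJ, mem_Icc, mem_Icc] at hc
        have hlz : lz z (c + d * r) = 0 := by
          rw [lz_eq z _ (by linarith [hc.2.1]), if_neg, mul_zero]
          intro h6
          exact h6 p hp hpu
        have hfu : |fz w z (c + d * r)| ≤ (Vz w)⁻¹ := by
          unfold fz
          rw [hlz, zero_sub, abs_neg, abs_of_nonneg (lz_nonneg w _)]
          exact lz_le w _
        have h6 : (1 : ℝ) ≤ ∑ p ∈ (pz z).filter (fun p : ℕ => w < p ∧ (p : ℤ) ∣ q),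
            (if (p : ℤ) ∣ (c + d * r) then (1 : ℝ) else 0) := by
          have h7 : (if (p : ℤ) ∣ (c + d * r) then (1 : ℝ) else 0) ≤ ∑ p ∈ (pz z).filter (fun p : ℕ => w < p ∧ (p : ℤ) ∣ q),
            (if (p : ℤ) ∣ (c + d * r) then (1 : ℝ) else 0) := by
            apply single_le_sum (f := fun p : ℕ => (if (p : ℤ) ∣ (c + d * r) then (1 : ℝ) else 0))
            · intro p' _; split_ifs <;> norm_num
            · rw [mem_filter]; exact ⟨hp, hwp, hpq⟩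
          rwa [if_pos hpu] at h7
        apply mul_le_mul hfu _ (by positivity) hVw.le
        apply mul_le_mul_of_nonneg_left _ hVw.le
        calc (M : ℝ) = M * 1 := (mul_one _).symm
          _ ≤ _ := mul_le_mul_of_nonneg_left h6 hM0
      · rw [mul_zero]; positivity
    linarith
  refine (sum_le_sum hstep).trans ?_
  rw [sum_add_distrib, sum_add_distrib, ← sum_mul, sum_const, nsmul_eq_mul]
  have hE0 : 0 ≤ (Vz w)⁻¹ * (4 * k / w) + 2 * (1 / 2) ^ b * (Vz z)⁻¹ := by positivity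
  have hSJ : ∀ c ∈ S, c + d * r ∈ Icc u v := by
    intro c hc; rw [hS, mem_filter] at hc; exact hc.2
  -- first
  have f1 : ∑ c ∈ S, |fz w z (c + d * r)| ≤ 2 * (2 * (#J : ℝ) + Z) := by
    refine (shift_le (fun k => |fz w z k|) (fun k => abs_nonneg _) S (d * r) u v hSJ).trans ?_
    refine (sum_le_sum fun k _ => fz_abs2 w z k).trans ?_
    rw [sum_add_distrib]
    have h6 := (hbz _ (conv u v)).1
    have h7 := (hbw _ (conv u v)).1
    rw [← hZ] at h6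
    rw [hJ]
    linarith
  -- the number of terms
  have hSc : (#S : ℝ) ≤ #J := by
    have : #S ≤ #J := by
      apply card_le_card_of_injOn (fun c => c + d * r)
      · intro c hc; exact hSJ c hc
      · intro x _ y _ h; simpa using h
    exact_mod_cast this
  -- the bad numbers
  have f2 : ∑ c ∈ S, (Vz w)⁻¹ * ((Vz w)⁻¹ * (M * ∑ p ∈ (pz z).filter (fun p : ℕ => w < p ∧ (p : ℤ) ∣ q),
        (if (p : ℤ) ∣ (c + d * r) then (1 : ℝ) else 0))) ≤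
      M * ((Vz w)⁻¹ * ((Vz w)⁻¹ * (k * ((#J : ℝ) / w + 1)))) := by
    rw [← mul_sum, ← mul_sum, ← mul_sum, sum_comm]
    have h3 : ∀ p ∈ (pz z).filter (fun p : ℕ => w < p ∧ (p : ℤ) ∣ q),
        ∑ c ∈ S, (if (p : ℤ) ∣ (c + d * r) then (1 : ℝ) else 0) ≤ (#J : ℝ) / w + 1 := by
      intro p hp
      rw [mem_filter, mem_pz] at hp
      have hp1 : 1 ≤ p := hp.1.2.one_le
      have hpw : (w : ℝ) ≤ p := by exact_mod_cast hp.2.1.le
      refine (shift_le (fun k => if (p : ℤ) ∣ k then (1 : ℝ) else 0)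
        (fun k => by split_ifs <;> norm_num) S (d * r) u v hSJ).trans ?_
      rw [sum_boole]
      refine (cnt p hp1 u v).trans ?_
      have : (#(Icc u v) : ℝ) / p ≤ #(Icc u v) / w :=
        div_le_div_of_nonneg_left (Nat.cast_nonneg _) (by linarith) hpw
      rw [hJ]
      linarith
    have h4 := sum_le_sum h3
    rw [sum_const, nsmul_eq_mul] at h4
    have h5 : (#((pz z).filter (fun p : ℕ => w < p ∧ (p : ℤ) ∣ q)) : ℝ) ≤ k := by
      exact_mod_cast card_pf z w q hq0.ne' k hlogq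
    have h6 := h4.trans (mul_le_mul_of_nonneg_right h5 (show (0 : ℝ) ≤ (#J : ℝ) / w + 1 by positivity))
    calc _ ≤ (Vz w)⁻¹ * ((Vz w)⁻¹ * (M * (k * ((#J : ℝ) / w + 1)))) := by
          apply mul_le_mul_of_nonneg_left _ hVw.le
          apply mul_le_mul_of_nonneg_left _ hVw.le
          exact mul_le_mul_of_nonneg_left h6 hM0
      _ = _ := by ring
  have f3 := mul_le_mul_of_nonneg_right f1 (mul_nonneg hM0 hE0)
  have f4 := mul_le_mul_of_nonneg_right hSc (show (0 : ℝ) ≤ (Vz z)⁻¹ * (2 * Z) by positivity)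
  linarith

/-- the diagonal -/
theorem diag1 (C1 b w z : ℕ) (hwz : w ≤ z) (hbw : Both C1 b w) (hbz : Both C1 b z) (u v : ℤ) :
    ∑ k ∈ Icc u v, fz w z k ^ 2 ≤ (Vz z)⁻¹ * (2 * (2 * (#(Icc u v) : ℝ) + (z : ℝ) ^ (C1 * b))) := by
  have hVz : 0 < (Vz z)⁻¹ := inv_pos.2 (Vz_pos z)
  have hwz' : (w : ℝ) ≤ z := by exact_mod_cast hwz
  have hZw : (w : ℝ) ^ (C1 * b) ≤ (z : ℝ) ^ (C1 * b) := pow_le_pow_left₀ (by positivity) hwz' _
  have h1 : ∀ k ∈ Icc u v, fz w z k ^ 2 ≤ (Vz z)⁻¹ * (lz z k + lz w k) := by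
    intro k _
    rw [← sq_abs, sq]
    exact mul_le_mul (fz_abs w z hwz _) (fz_abs2 w z _) (abs_nonneg _) hVz.le
  refine (sum_le_sum h1).trans ?_
  rw [← mul_sum, sum_add_distrib]
  apply mul_le_mul_of_nonneg_left _ hVz.le
  have h6 := (hbz _ (conv u v)).1
  have h7 := (hbw _ (conv u v)).1
  linarith

end Run7.h285.E2
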