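import Pool.Agent.Run7.h285.E0
import Pool.Agent.Run7.h285.E2a
import Pool.Agent.Run7.h285.Blk
import Pool.Agent.TH892.OW.B5c

/-!
# Piece E2 of the project CR (helper757): the second moment over pairs of the difference of two sieve models
-/

set_option autoImplicit false

namespace Run7.h285.E2

open Finset Filter
open Pool.Agent.H373R2.T7 (pz Vz lamz mem_pz Vz_ge Vz_inv_le Vz_le_one Vz_inv_small)
open Pool.Agent.TH892.OW
open Run7.h757.CR (M2 S_E0 S_E2)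
open Pool.Agent.H442R2.EHI (evt_log_pow evt_log_ge)

/-- `S_E0` -/
theorem e0 : S_E0 := by
  intro g G0 R s X m₀ M H u v h1 h2 h3 h4 h5 h6 h7 h8
  exact Run7.h285.E0.e0 g G0 R s X m₀ M H u v h1 h2 h3 h4 h5 h6 h7 h8

/-- `36 (Vz z)⁻¹ ≤ √(log X)` -/
lemma Vz_sqrt (E : ℕ) (hE : 1 ≤ E) : ∃ X0 : ℕ, ∀ X : ℕ, X0 ≤ X → 36 * (Vz ⌊Real.log X ^ E⌋₊)⁻¹ ≤ √(Real.log X) := by
  obtain ⟨C, hC, hVl⟩ := Vz_log
  have hev : ∀ᶠ X : ℕ in atTop, (10000 : ℝ) ≤ Real.log X ∧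
      (36 * (C * E ^ 2)) * Real.log (Real.log X) ^ 2 ≤ Real.log X ^ (1 / 2 : ℝ) := by
    filter_upwards [evt_log_ge 10000, evt_ll 2 (1 / 2) (36 * (C * E ^ 2)) (by norm_num)] with X a1 a2
    exact ⟨a1, a2⟩
  obtain ⟨X1, hX1⟩ := eventually_atTop.1 hev
  refine ⟨X1, fun X hX => ?_⟩
  obtain ⟨hl, hm2⟩ := hX1 X hX
  clear hev hX1 hX
  rw [← Real.sqrt_eq_rpow] at hm2
  generalize Real.log X = l at *
  obtain ⟨z, hz⟩ : ∃ z, z = ⌊l ^ E⌋₊ := ⟨_, rfl⟩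
  rw [← hz]
  have hl1 : 1 ≤ l := by linarith
  have hzle : (z : ℝ) ≤ l ^ E := by rw [hz]; exact Nat.floor_le (by positivity)
  have hlE : l ≤ l ^ E := le_self_pow₀ hl1 (by omega)
  have hz3 : 3 ≤ z := by
    have h3 := Nat.lt_floor_add_one (l ^ E)
    rw [← hz] at h3
    have : (3 : ℝ) ≤ z := by linarith
    exact_mod_cast this
  have hzr : (3 : ℝ) ≤ z := by exact_mod_cast hz3
  have h3 : Real.log z ≤ E * Real.log l := by
    have := Real.log_le_log (by linarith) hzle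
    rwa [Real.log_pow] at this
  have h4 : 0 ≤ Real.log z := Real.log_nonneg (by linarith)
  have hVz : (Vz z)⁻¹ ≤ C * E ^ 2 * Real.log l ^ 2 := by
    refine (hVl z hz3).trans ?_
    calc C * Real.log z ^ 2 ≤ C * (E * Real.log l) ^ 2 := by gcongr
      _ = _ := by ring
  linarith

lemma ar_off (X M J k w Ww V Z p m l : ℝ) (hX : 1 ≤ X) (hM : 0 ≤ M) (hJ0 : 0 ≤ J) (hJ : J ≤ 4 * X) (hk : 0 ≤ k)
    (hw : 1 ≤ w) (hwX : w ≤ X) (hW : 1 ≤ Ww) (hV : 0 ≤ V) (hZ : 0 ≤ Z) (hZX : Z ≤ X) (hp0 : 0 ≤ p) (hp : p ≤ 1 / l ^ 2)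
    (hl : 1 ≤ l) (hm : 0 < m) (hml : 112 * m ^ 2 ≤ l) (hVl : 36 * V ≤ √l) (hkey : 500 * (k * Ww ^ 2 / w) ≤ 1 / m ^ 2)
    (hZM : l * (√l * Z) ≤ M) :
    (2 * (2 * J + Z)) * (M * (Ww * (4 * k / w) + 2 * p * V)) + J * (V * (2 * Z)) +
      M * (Ww * (Ww * (k * (J / w + 1)))) ≤ X * M / (4 * m ^ 2) := by
  have hl0 : 0 < l := by linarith
  have hw0 : 0 < w := by linarith
  have hsl : √l ≤ l := by
    rw [Real.sqrt_le_left hl0.le]; nlinarith
  have hs0 : 0 ≤ √l := Real.sqrt_nonneg l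
  have hkw : Ww * (k / w) ≤ k * Ww ^ 2 / w := by
    rw [mul_div_assoc', div_le_div_iff₀ hw0 hw0]
    have h1 : Ww ≤ Ww ^ 2 := by nlinarith
    calc Ww * k * w = Ww * (k * w) := by ring
      _ ≤ Ww ^ 2 * (k * w) := mul_le_mul_of_nonneg_right h1 (by positivity)
      _ = _ := by ring
  set Q := k * Ww ^ 2 / w with hQ
  have hQ0 : 0 ≤ Q := by rw [hQ]; positivity
  have hQm : Q ≤ 1 / (500 * m ^ 2) := by
    rw [le_div_iff₀ (by positivity)]
    have h1 : Q * (500 * m ^ 2) = (500 * Q) * m ^ 2 := by ring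
    rw [h1]
    calc (500 * Q) * m ^ 2 ≤ (1 / m ^ 2) * m ^ 2 := mul_le_mul_of_nonneg_right hkey (by positivity)
      _ = 1 := by field_simp
  have hXM : 0 ≤ X * M := by positivity
  have hlm : 1 / l ≤ 1 / (112 * m ^ 2) := one_div_le_one_div_of_le (by positivity) hml
  -- first term
  have t0 : 2 * (2 * J + Z) ≤ 18 * X := by linarith
  have t1 : (2 * (2 * J + Z)) * (M * (Ww * (4 * k / w) + 2 * p * V)) ≤ 18 * X * (M * (4 * Q + 2 * (1 / l ^ 2) * l / 36)) := by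
    apply mul_le_mul t0 _ (by positivity) (by positivity)
    apply mul_le_mul_of_nonneg_left _ hM
    apply add_le_add
    · calc Ww * (4 * k / w) = 4 * (Ww * (k / w)) := by ring
        _ ≤ 4 * Q := by linarith
    · have h1 : V ≤ l / 36 := by linarith
      have h2 : 2 * p ≤ 2 * (1 / l ^ 2) := by linarith
      calc 2 * p * V ≤ 2 * (1 / l ^ 2) * (l / 36) := mul_le_mul h2 h1 hV (by positivity)
        _ = _ := by ring
  have t1' : 18 * X * (M * (4 * Q + 2 * (1 / l ^ 2) * l / 36)) = X * M * (72 * Q) + X * M * (1 / l) := by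
    field_simp; ring
  -- second term
  have t2 : J * (V * (2 * Z)) ≤ X * M * (1 / l) := by
    have h1 : V ≤ √l / 36 := by linarith
    have h2 : √l * Z ≤ M * (1 / l) := by
      rw [mul_one_div, le_div_iff₀ hl0]; linarith
    calc J * (V * (2 * Z)) ≤ 4 * X * ((√l / 36) * (2 * Z)) := by
          apply mul_le_mul hJ _ (by positivity) (by positivity)
          exact mul_le_mul_of_nonneg_right h1 (by positivity)
      _ = X * (√l * Z) * (8 / 36) := by ring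
      _ ≤ X * (√l * Z) * 1 := mul_le_mul_of_nonneg_left (by norm_num) (by positivity)
      _ ≤ X * (M * (1 / l)) := by rw [mul_one]; exact mul_le_mul_of_nonneg_left h2 (by linarith)
      _ = _ := by ring
  -- third term
  have t3 : M * (Ww * (Ww * (k * (J / w + 1)))) ≤ X * M * (5 * Q) := by
    have h1 : J / w + 1 ≤ 5 * X / w := by
      rw [← sub_nonneg]
      have : 5 * X / w - (J / w + 1) = (5 * X - J - w) / w := by field_simp; ring
      rw [this]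
      apply div_nonneg _ hw0.le
      linarith
    calc M * (Ww * (Ww * (k * (J / w + 1)))) ≤ M * (Ww * (Ww * (k * (5 * X / w)))) := by gcongr
      _ = _ := by rw [hQ]; ring
  have t4 : 77 * Q + 2 * (1 / l) ≤ 1 / (4 * m ^ 2) := by
    have h1 : 77 * (1 / (500 * m ^ 2)) + 2 * (1 / (112 * m ^ 2)) ≤ 1 / (4 * m ^ 2) := by
      have e1 : 77 * (1 / (500 * m ^ 2)) + 2 * (1 / (112 * m ^ 2)) = (77 / 500 + 2 / 112) * (1 / m ^ 2) := by
        field_simp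
      have e2 : 1 / (4 * m ^ 2) = (1 / 4) * (1 / m ^ 2) := by field_simp
      rw [e1, e2]
      apply mul_le_mul_of_nonneg_right (by norm_num) (by positivity)
    linarith
  calc _ ≤ (X * M * (72 * Q) + X * M * (1 / l)) + X * M * (1 / l) + X * M * (5 * Q) := by
        rw [t1'] at t1; linarith
    _ = X * M * (77 * Q + 2 * (1 / l)) := by ring
    _ ≤ X * M * (1 / (4 * m ^ 2)) := mul_le_mul_of_nonneg_left t4 hXM
    _ = _ := by rw [mul_one_div]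

theorem e2 : S_E2 := by
  intro C D E u hE hu
  obtain ⟨C1, y0, hC1, hy0, hb0⟩ := both
  obtain ⟨Xw, hXw⟩ := params_w D u y0 hu
  obtain ⟨Xz, hXz⟩ := params_z E C1 hE
  obtain ⟨Xv, hXv⟩ := Vz_sqrt E hE
  obtain ⟨Xb, hXb⟩ := Run7.h285.Blk.block_par C D
  refine ⟨max (max Xw Xz) (max Xv Xb), fun X hX m₀ M H hH hHD hM hW s hs => ?_⟩
  obtain ⟨hwy, hwl, hwk⟩ := hXw X (by omega)
  obtain ⟨hm1, hml, hz3, -, b, hb, hb1, hpb, hzb⟩ := hXz X (by omega)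
  have hVz := hXv X (by omega)
  obtain ⟨hl, hX1, hlX, hblk1, hblk2, hblk⟩ := hXb X (by omega)
  obtain ⟨k, hk1, hk2, hk3, hk4⟩ := hwk H hH hHD
  clear hXw hXz hXv hXb hwk hX
  have hwz : ⌊Real.log X ^ (1 / (u : ℝ))⌋₊ ≤ ⌊Real.log X ^ E⌋₊ := by
    apply Nat.floor_le_floor
    have hl1 : 1 ≤ Real.log X := by linarith
    have hur : (0 : ℝ) < u := by exact_mod_cast hu
    calc Real.log X ^ (1 / (u : ℝ)) ≤ Real.log X ^ (1 : ℝ) := by
          apply Real.rpow_le_rpow_of_exponent_le hl1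
          rw [div_le_one hur]; exact_mod_cast hu
      _ = Real.log X := Real.rpow_one _
      _ ≤ Real.log X ^ E := le_self_pow₀ hl1 (by omega)
  obtain ⟨x, hx, hx1, hx16, hx8, hx3, hx5⟩ := Run7.h285.Blk.xfacts X hX1
  rw [← hx] at hlX hzb
  generalize ⌊Real.log X ^ (1 / (u : ℝ))⌋₊ = w at *
  generalize ⌊Real.log X ^ E⌋₊ = z at *
  generalize hll : Real.log X = l at *
  generalize Real.log l = m at *
  have hl0 : 0 < l := by linarith
  have hl1 : 1 ≤ l := by linarith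
  have hm0 : 0 < m := by linarith
  have hX1r : (1 : ℝ) ≤ X := by exact_mod_cast hX1
  have hX0 : (0 : ℝ) < X := by linarith
  have hw2 : 2 ≤ w := by omega
  have hbw := hb0 b hb w (by omega)
  have hbz := hb0 b hb z (by omega)
  have hVz0 : 0 < (Vz z)⁻¹ := inv_pos.2 (Vz_pos z)
  have hVw1 := one_le_Vz_inv w
  have hsl : √l ≤ l := by rw [Real.sqrt_le_left hl0.le]; nlinarith
  have hs0 : 0 ≤ √l := Real.sqrt_nonneg l
  have hss : √l * √l = l := Real.mul_self_sqrt hl0.le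
  have hZ0 : 0 ≤ (z : ℝ) ^ (C1 * b) := by positivity
  have hlx : l ≤ x := (le_self_pow₀ hl1 (by omega)).trans hlX
  have hl2x : l ^ 2 ≤ x := (pow_le_pow_right₀ hl1 (by omega)).trans hlX
  have hxX : x ≤ X := by rw [← hx16]; exact le_self_pow₀ hx1 (by norm_num)
  have hHl : (H : ℝ) ≤ l ^ D := hHD
  -- the blocks
  have main := Run7.h285.Blk.M2_blocks (fz w z) s X H ⌈(X : ℝ) ^ (1 / 3 : ℝ)⌉₊ ⌊√(X : ℝ) / l ^ (C + 3)⌋₊
    (X * (H * √l + (H : ℝ) ^ 2 / m ^ 2)) (√(X : ℝ) * l ^ C) hblk1 hblk2 ?_ M m₀ (Nat.ceil_le.2 hM) hW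
  · refine main.trans (le_of_eq ?_)
    ring
  · intro m₁ M' hM1 hM2 hW'
    obtain ⟨hlen, hMX, -⟩ := hblk m₁ M' H hM2 hHl hW'
    obtain ⟨u', v', hu1, huv, hJ, -, hval⟩ := Run7.h285.Blk.range_uv X m₁ M' H s hs hX1 hlen
    have hJr : (#(Icc u' v') : ℝ) ≤ 4 * X := by exact_mod_cast hJ
    have hMx5 : x ^ 5 ≤ M' := by
      have h1 : (X : ℝ) ^ (1 / 3 : ℝ) ≤ M' := Nat.ceil_le.1 hM1
      linarith
    have hM0 : (0 : ℝ) ≤ M' := Nat.cast_nonneg _
    have hZx : (z : ℝ) ^ (C1 * b) ≤ x := hzb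
    have hR := fun (d : ℕ) (hd : d ∈ Icc 1 H) (r : ℤ) => off1 C1 b w z hw2 hwz hbw hbz u' v' hu1 M' d k
      (mem_Icc.1 hd).1 ((Nat.log_mono_right (by have := (mem_Icc.1 hd).2; omega)).trans hk2) hk3 r
    have hR2 : ∀ d ∈ Icc 1 H, ∀ r : ℤ,
        ∑ c ∈ (Icc (u' - 2 * d) (v' - 2 * d * M')).filter (fun c => c + d * r ∈ Icc u' v'),
          |fz w z (c + d * r)| * |∑ t ∈ Icc (1 : ℤ) M', fz w z (c + 2 * d * t)| ≤ X * M' / (4 * m ^ 2) := by
      intro d hd r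
      refine (hR d hd r).trans ?_
      apply ar_off X M' _ k w (Vz w)⁻¹ (Vz z)⁻¹ ((z : ℝ) ^ (C1 * b)) ((1 / 2) ^ b) m l hX1r hM0 (Nat.cast_nonneg _) hJr
        (Nat.cast_nonneg _) (by exact_mod_cast (by omega : 1 ≤ w)) (by linarith) hVw1 hVz0.le hZ0 (by linarith)
        (by positivity) hpb hl1 hm0 hml hVz hk4
      calc l * (√l * (z : ℝ) ^ (C1 * b)) ≤ l * (l * x) := by gcongr
        _ = l ^ 2 * x := by ring
        _ ≤ x * x := mul_le_mul_of_nonneg_right hl2x (by linarith)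
        _ = x ^ 2 := by ring
        _ ≤ x ^ 5 := pow_le_pow_right₀ hx1 (by norm_num)
        _ ≤ M' := hMx5
    have hE0 := Run7.h285.E0.e0 (fz w z) (Vz z)⁻¹ (X * M' / (4 * m ^ 2)) s X m₁ M' H u' v' (fz_neg w z)
      (fz_abs w z hwz) hs hu1 huv (by positivity) hval hR2
    unfold M2
    refine hE0.trans ?_
    have hdiag := diag1 C1 b w z hwz hbw hbz u' v'
    have hd2 : ∑ k ∈ Icc u' v', fz w z k ^ 2 ≤ X * √l / 2 := by
      refine hdiag.trans ?_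
      have h1 : 2 * (2 * (#(Icc u' v') : ℝ) + (z : ℝ) ^ (C1 * b)) ≤ 18 * X := by linarith
      calc (Vz z)⁻¹ * (2 * (2 * (#(Icc u' v') : ℝ) + (z : ℝ) ^ (C1 * b))) ≤ (Vz z)⁻¹ * (18 * X) :=
            mul_le_mul_of_nonneg_left h1 hVz0.le
        _ = (36 * (Vz z)⁻¹) * X / 2 := by ring
        _ ≤ √l * X / 2 := by gcongr
        _ = _ := by ring
    have hH0 : (0 : ℝ) ≤ H := Nat.cast_nonneg _
    have hG2 : (Vz z)⁻¹ ^ 2 ≤ l / 1296 := by
      have h1 : (Vz z)⁻¹ ≤ √l / 36 := by linarith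
      calc (Vz z)⁻¹ ^ 2 ≤ (√l / 36) ^ 2 := pow_le_pow_left₀ hVz0.le h1 2
        _ = (√l * √l) / 1296 := by ring
        _ = _ := by rw [hss]
    have h3 : 8 * (H : ℝ) ^ 3 * (M' : ℝ) ^ 2 * (Vz z)⁻¹ ^ 2 ≤ (H : ℝ) ^ 2 * (X * M' / (4 * m ^ 2)) := by
      have h4 : (H : ℝ) * M' * l * (4 * m ^ 2) * 8 / 1296 ≤ X := by
        have h5 : (4 : ℝ) * m ^ 2 ≤ l := by nlinarith [sq_nonneg m]
        calc (H : ℝ) * M' * l * (4 * m ^ 2) * 8 / 1296 ≤ l ^ D * x ^ 8 * l * l * 8 / 1296 := by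
              rw [hx8]; gcongr
          _ = (l ^ (D + 2) * x ^ 8) * (8 / 1296) := by ring
          _ ≤ (x * x ^ 8) * 1 := by
              apply mul_le_mul _ (by norm_num) (by norm_num) (by positivity)
              apply mul_le_mul_of_nonneg_right _ (by positivity)
              exact (pow_le_pow_right₀ hl1 (by omega)).trans hlX
          _ = x ^ 9 := by ring
          _ ≤ x ^ 16 := pow_le_pow_right₀ hx1 (by norm_num)
          _ = X := hx16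
      calc 8 * (H : ℝ) ^ 3 * (M' : ℝ) ^ 2 * (Vz z)⁻¹ ^ 2 ≤ 8 * (H : ℝ) ^ 3 * (M' : ℝ) ^ 2 * (l / 1296) := by gcongr
        _ = (H : ℝ) ^ 2 * M' * ((H : ℝ) * M' * l * (4 * m ^ 2) * 8 / 1296) / (4 * m ^ 2) := by field_simp
        _ ≤ (H : ℝ) ^ 2 * M' * X / (4 * m ^ 2) := by gcongr
        _ = _ := by ring
    have h5 : (H : ℝ) * M' * ∑ k ∈ Icc u' v', fz w z k ^ 2 ≤ H * M' * (X * √l / 2) :=
      mul_le_mul_of_nonneg_left hd2 (by positivity)
    have h6 : (H : ℝ) ^ 2 * (X * M' / (4 * m ^ 2)) = M' * (X * ((H : ℝ) ^ 2 / m ^ 2)) / 4 := by field_simp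
    have h7 : 0 ≤ (M' : ℝ) * (X * ((H : ℝ) ^ 2 / m ^ 2)) := by positivity
    have h8 : 0 ≤ (M' : ℝ) * (X * (H * √l)) := by positivity
    have e9 : (M' : ℝ) * (X * (H * √l + (H : ℝ) ^ 2 / m ^ 2)) = M' * (X * (H * √l)) + M' * (X * ((H : ℝ) ^ 2 / m ^ 2)) := by
      ring
    have e10 : (H : ℝ) * M' * (X * √l / 2) = M' * (X * (H * √l)) / 2 := by ring
    rw [e9]
    linarith

end Run7.h285.E2
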