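import Pool.Agent.Run7.h285.E3a
import Pool.Agent.TH892.OW.B5b

/-!
# Piece E of the project CR (helper757): the second moments for all lengths, one pair, the weights
-/

set_option autoImplicit false

namespace Run7.h285.E3

open Finset Filter
open Pool.Agent.H373R2.T7 (pz Vz lamz mem_pz Vz_ge Vz_inv_le Vz_le_one Vz_inv_small)
open Pool.Agent.TH892.SW (ff ffn wt wt_nonneg wt_le flq HP)
open Pool.Agent.TH892.OW (fz lz evt_ll)
open Run7.h757.CR (M2 P Wt hprod S_E1 S_E2 S_HG)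
open Pool.Agent.H442R2.EHI (evt_log_pow evt_log_ge)

/-- the second moments of `ff` for all lengths -/
theorem mom_ff (h1 : S_E1) (θ : ℝ) (hθ : 0 < θ) : ∃ T : ℝ, 1 ≤ T ∧ ∀ C : ℕ, ∃ E1 : ℕ, ∀ E : ℕ, E1 ≤ E →
    ∃ B X₀ : ℕ, ∀ X : ℕ, X₀ ≤ X → ∀ m₀ M H : ℕ, (X : ℝ) ^ (1 / 3 : ℝ) * Real.log X ^ B ≤ M →
      (m₀ : ℝ) + M ≤ √X * Real.log X ^ C → T * Real.log X ≤ H → H ≤ M → ∀ s : ℤ, (s = 1 ∨ s = -1) →
      M2 (ff ⌊Real.log X ^ E⌋₊) s X m₀ M H ≤ X * M * (((H : ℝ) / Real.log X) ^ 2 * θ) := by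
  obtain ⟨K₀, hK, h1⟩ := h1
  refine ⟨2 * K₀ / θ + 1, by have : 0 < 2 * K₀ / θ := by positivity
                             linarith, fun C => ?_⟩
  obtain ⟨E1, h1⟩ := h1 3 (C + 1) 3
  refine ⟨E1, fun E hE => ?_⟩
  obtain ⟨B, X1, h1⟩ := h1 E hE
  obtain ⟨X2, hX2⟩ := eventually_atTop.1 ((evt_log_ge 10000).and (evt_log_ge (16 * K₀ / θ)))
  refine ⟨B, max X1 X2, fun X hX m₀ M H hM hW hT hHM s hs => ?_⟩
  obtain ⟨hl, hlK⟩ := hX2 X (le_trans (le_max_right _ _) hX)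
  have h2 := fun m₁ r hr hr3 hW1 => h1 X (le_trans (le_max_left _ _) hX) m₁ M r hr hr3 hM hW1 s hs
  clear h1 hX2 hX
  generalize Real.log X = l at *
  have hl0 : 0 < l := by linarith
  have hl1 : 1 ≤ l := by linarith
  have hW2 : (m₀ : ℝ) + H + M ≤ √X * l ^ (C + 1) := by
    have hHM' : (H : ℝ) ≤ M := by exact_mod_cast hHM
    have h3 : 0 ≤ √(X : ℝ) * l ^ C := by positivity
    have hm0 : (0 : ℝ) ≤ m₀ := Nat.cast_nonneg _
    calc (m₀ : ℝ) + H + M ≤ 2 * (√X * l ^ C) := by linarith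
      _ ≤ l * (√X * l ^ C) := mul_le_mul_of_nonneg_right (by linarith) h3
      _ = _ := by ring
  have hXM : 0 ≤ (X : ℝ) * M := by positivity
  have hq : 2 * K₀ / θ + 1 ≤ (H : ℝ) / l := by rw [le_div_iff₀ hl0]; exact hT
  have hH1 : 1 ≤ H := by
    have h3 : (0 : ℝ) < H := by
      have : 0 < 2 * K₀ / θ := by positivity
      have : 0 < (2 * K₀ / θ + 1) * l := by positivity
      linarith
    exact_mod_cast h3
  have hKl : 16 * K₀ ≤ θ * l := by rw [div_le_iff₀ hθ] at hlK; linarith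
  rcases le_or_gt (H : ℝ) (l ^ 3) with h3 | h3
  · refine (h2 m₀ H hH1 h3 ?_).trans ?_
    · have : (0 : ℝ) ≤ H := Nat.cast_nonneg _
      linarith
    · apply mul_le_mul_of_nonneg_left _ hXM
      set q := (H : ℝ) / l with hqd
      have hq0 : 0 < q := by
        have : 0 < 2 * K₀ / θ := by positivity
        linarith
      have e1 : K₀ * H / l = K₀ * q := by rw [hqd]; ring
      have e2 : (H : ℝ) ^ 2 / l ^ 3 = q ^ 2 / l := by rw [hqd]; field_simp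
      rw [e1, e2]
      have h4 : K₀ * q ≤ q ^ 2 * (θ / 2) := by
        have h5 : 2 * K₀ / θ ≤ q := by linarith
        rw [div_le_iff₀ hθ] at h5
        nlinarith
      have h6 : q ^ 2 / l ≤ q ^ 2 * (θ / 2) := by
        rw [div_le_iff₀ hl0]
        have h7 : 1 ≤ θ / 2 * l := by linarith
        have h8 : 0 ≤ q ^ 2 := sq_nonneg q
        nlinarith
      linarith
  · obtain ⟨H₁, hH₁⟩ : ∃ H₁, H₁ = ⌊l ^ 3⌋₊ := ⟨_, rfl⟩
    have a1 : (H₁ : ℝ) ≤ l ^ 3 := by rw [hH₁]; exact Nat.floor_le (by positivity)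
    have a2 : l ^ 2 ≤ (H₁ : ℝ) := by
      have h4 := Nat.lt_floor_add_one (l ^ 3)
      rw [← hH₁] at h4
      nlinarith [sq_nonneg l]
    have a3 : H₁ ≤ H := by
      have : (H₁ : ℝ) ≤ H := by linarith
      exact_mod_cast this
    have hl2 : 0 < l ^ 2 := by positivity
    have a4 : (0 : ℝ) < H₁ := by linarith
    have a5 : 1 ≤ H₁ := by exact_mod_cast a4
    have h4 := M2_long (ff ⌊l ^ E⌋₊) s X M H₁ (X * M * (K₀ * H₁ / l + (H₁ : ℝ) ^ 2 / l ^ 3)) (√X * l ^ (C + 1)) a5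
      (by positivity) (by
        intro m₁ r hr hr1 hW1
        have hr' : (r : ℝ) ≤ H₁ := by exact_mod_cast hr1
        refine (h2 m₁ r hr (by linarith) hW1).trans ?_
        gcongr) m₀ H a3 hW2
    refine h4.trans ?_
    have e1 : 4 * ((H : ℝ) / H₁) ^ 2 * (X * M * (K₀ * H₁ / l + (H₁ : ℝ) ^ 2 / l ^ 3)) =
        X * M * (((H : ℝ) / l) ^ 2 * (4 * K₀ * l / H₁ + 4 / l)) := by
      field_simp
    rw [e1]
    apply mul_le_mul_of_nonneg_left _ hXM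
    apply mul_le_mul_of_nonneg_left _ (sq_nonneg _)
    have h5 : 4 * K₀ * l / H₁ ≤ θ / 2 := by
      rw [div_le_iff₀ a4]
      nlinarith
    have h6 : 4 / l ≤ θ / 2 := by
      rw [div_le_iff₀ hl0]
      linarith
    linarith

/-- the second moments of `fz` for all lengths -/
theorem mom_fz (h1 : S_E2) (θ : ℝ) (hθ : 0 < θ) (C E u : ℕ) (hE : 1 ≤ E) (hu : 1 ≤ u) :
    ∃ X₀ : ℕ, ∀ X : ℕ, X₀ ≤ X → ∀ m₀ M H : ℕ, (X : ℝ) ^ (1 / 3 : ℝ) ≤ M →
      (m₀ : ℝ) + M ≤ √X * Real.log X ^ C → Real.log X ≤ H → H ≤ M → ∀ s : ℤ, (s = 1 ∨ s = -1) →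
      M2 (fz ⌊Real.log X ^ (1 / (u : ℝ))⌋₊ ⌊Real.log X ^ E⌋₊) s X m₀ M H ≤ X * M * ((H : ℝ) ^ 2 * θ) := by
  obtain ⟨X1, h1⟩ := h1 (C + 1) 3 E u hE hu
  obtain ⟨X2, hX2⟩ := eventually_atTop.1 (((evt_log_ge 10000).and (evt_log_ge ((8 / θ) ^ 2))).and
    (evt_log_ge (Real.exp (8 / θ + 1))))
  refine ⟨max X1 X2, fun X hX m₀ M H hM hW hT hHM s hs => ?_⟩
  obtain ⟨⟨hl, hls⟩, hle⟩ := hX2 X (le_trans (le_max_right _ _) hX)
  have h2 := fun m₁ r hr hr3 hW1 => h1 X (le_trans (le_max_left _ _) hX) m₁ M r hr hr3 hM hW1 s hs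
  clear h1 hX2 hX
  have h8 : 0 < 8 / θ := by positivity
  have hm : 8 / θ + 1 ≤ Real.log (Real.log X) := by
    rw [Real.le_log_iff_exp_le (by linarith)]; exact hle
  generalize ⌊Real.log X ^ (1 / (u : ℝ))⌋₊ = w at *
  generalize ⌊Real.log X ^ E⌋₊ = z at *
  generalize Real.log X = l at *
  generalize Real.log l = m at *
  have hl0 : 0 < l := by linarith
  have hl1 : 1 ≤ l := by linarith
  have hs8 : 8 / θ ≤ √l := Real.le_sqrt_of_sq_le hls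
  have hs0 : 0 < √l := by linarith
  have hss : √l * √l = l := Real.mul_self_sqrt hl0.le
  have hm0 : 0 < m := by linarith
  have b1 : 4 / √l ≤ θ / 2 := by
    rw [div_le_iff₀ hs0]
    rw [div_le_iff₀ hθ] at hs8
    linarith
  have b2 : 4 / m ^ 2 ≤ θ / 2 := by
    rw [div_le_iff₀ (by positivity)]
    have h3 : 8 / θ ≤ m ^ 2 := by nlinarith
    rw [div_le_iff₀ hθ] at h3
    linarith
  have hW2 : (m₀ : ℝ) + H + M ≤ √X * l ^ (C + 1) := by
    have hHM' : (H : ℝ) ≤ M := by exact_mod_cast hHM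
    have h3 : 0 ≤ √(X : ℝ) * l ^ C := by positivity
    have hm0 : (0 : ℝ) ≤ m₀ := Nat.cast_nonneg _
    calc (m₀ : ℝ) + H + M ≤ 2 * (√X * l ^ C) := by linarith
      _ ≤ l * (√X * l ^ C) := mul_le_mul_of_nonneg_right (by linarith) h3
      _ = _ := by ring
  have hXM : 0 ≤ (X : ℝ) * M := by positivity
  have hHr : (0 : ℝ) < H := by linarith
  have hH1 : 1 ≤ H := by exact_mod_cast hHr
  rcases le_or_gt (H : ℝ) (l ^ 3) with h3 | h3
  · refine (h2 m₀ H hH1 h3 ?_).trans ?_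
    · linarith
    · apply mul_le_mul_of_nonneg_left _ hXM
      have h4 : (H : ℝ) * √l ≤ (H : ℝ) ^ 2 * (1 / √l) := by
        rw [mul_one_div, le_div_iff₀ hs0]
        have : (H : ℝ) * √l * √l = H * l := by rw [mul_assoc, hss]
        rw [this]
        nlinarith
      have h5 : (H : ℝ) ^ 2 * (1 / √l) ≤ (H : ℝ) ^ 2 * (θ / 2) := by
        apply mul_le_mul_of_nonneg_left _ (sq_nonneg _)
        have : 1 / √l ≤ 4 / √l := by gcongr; norm_num
        linarith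
      have h6 : (H : ℝ) ^ 2 / m ^ 2 ≤ (H : ℝ) ^ 2 * (θ / 2) := by
        rw [div_eq_mul_one_div]
        apply mul_le_mul_of_nonneg_left _ (sq_nonneg _)
        have : 1 / m ^ 2 ≤ 4 / m ^ 2 := by gcongr; norm_num
        linarith
      linarith
  · obtain ⟨H₁, hH₁⟩ : ∃ H₁, H₁ = ⌊l ^ 3⌋₊ := ⟨_, rfl⟩
    have a1 : (H₁ : ℝ) ≤ l ^ 3 := by rw [hH₁]; exact Nat.floor_le (by positivity)
    have a2 : l ≤ (H₁ : ℝ) := by
      have h4 := Nat.lt_floor_add_one (l ^ 3)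
      rw [← hH₁] at h4
      have h5 : l ^ 3 = l * l ^ 2 := by ring
      nlinarith [sq_nonneg l]
    have a3 : H₁ ≤ H := by
      have : (H₁ : ℝ) ≤ H := by linarith
      exact_mod_cast this
    have a4 : (0 : ℝ) < H₁ := by linarith
    have a5 : 1 ≤ H₁ := by exact_mod_cast a4
    have h4 := M2_long (fz w z) s X M H₁ (X * M * (H₁ * √l + (H₁ : ℝ) ^ 2 / m ^ 2)) (√X * l ^ (C + 1)) a5
      (by positivity) (by
        intro m₁ r hr hr1 hW1
        have hr' : (r : ℝ) ≤ H₁ := by exact_mod_cast hr1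
        refine (h2 m₁ r hr (by linarith) hW1).trans ?_
        gcongr) m₀ H a3 hW2
    refine h4.trans ?_
    have e1 : 4 * ((H : ℝ) / H₁) ^ 2 * (X * M * (H₁ * √l + (H₁ : ℝ) ^ 2 / m ^ 2)) =
        X * M * ((H : ℝ) ^ 2 * (4 * √l / H₁ + 4 / m ^ 2)) := by
      field_simp
    rw [e1]
    apply mul_le_mul_of_nonneg_left _ hXM
    apply mul_le_mul_of_nonneg_left _ (sq_nonneg _)
    have h5 : 4 * √l / H₁ ≤ 4 / √l := by
      rw [div_le_div_iff₀ a4 hs0]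
      rw [mul_assoc, hss]
      linarith
    linarith

/-! ### one pair -/

/-- the weights -/
lemma sum_near (a : ℤ) (m H : ℕ) (κ l ε c0 : ℝ) (c : ℕ → ℝ) (hc : ∀ n, 0 ≤ c n) (hc0 : ∀ n, c n ≤ c0) (hl : 1 ≤ l)
    (hε : 0 ≤ ε) (hwt : ∀ n ∈ Ioc m (m + H), κ ≤ (((n : ℤ) ^ 2 + a).natAbs : ℝ) →
      |wt ((n : ℤ) ^ 2 + a).natAbs - 1 / l| ≤ ε * (1 / l)) :
    |∑ n ∈ Ioc m (m + H), c n * wt ((n : ℤ) ^ 2 + a).natAbs - 1 / l * ∑ n ∈ Ioc m (m + H), c n| ≤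
      ε * (1 / l) * ∑ n ∈ Ioc m (m + H), c n + 3 * (nn a m H κ : ℝ) * c0 := by
  have hl0 : 0 < l := by linarith
  have e1 : ε * (1 / l) * ∑ n ∈ Ioc m (m + H), c n + 3 * (nn a m H κ : ℝ) * c0 =
      ∑ n ∈ Ioc m (m + H), (ε * (1 / l) * c n + 3 * c0 * (if (((n : ℤ) ^ 2 + a).natAbs : ℝ) < κ then 1 else 0)) := by
    rw [sum_add_distrib, ← mul_sum, ← mul_sum, sum_boole]
    unfold nn
    ring
  rw [e1, mul_sum, ← sum_sub_distrib]
  refine (abs_sum_le_sum_abs _ _).trans (sum_le_sum fun n hn => ?_)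
  have e2 : c n * wt ((n : ℤ) ^ 2 + a).natAbs - 1 / l * c n = c n * (wt ((n : ℤ) ^ 2 + a).natAbs - 1 / l) := by ring
  rw [e2, abs_mul, abs_of_nonneg (hc n)]
  have hc00 : 0 ≤ c0 := (hc n).trans (hc0 n)
  split_ifs with h
  · have h1 : |wt ((n : ℤ) ^ 2 + a).natAbs - 1 / l| ≤ 3 := by
      have h2 := wt_nonneg ((n : ℤ) ^ 2 + a).natAbs
      have h3 := wt_le' ((n : ℤ) ^ 2 + a).natAbs
      have h4 : 1 / l ≤ 1 := by rw [div_le_one hl0]; exact hl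
      have h5 : 0 ≤ 1 / l := by positivity
      rw [abs_le]; constructor <;> linarith
    have h2 : c n * |wt ((n : ℤ) ^ 2 + a).natAbs - 1 / l| ≤ c0 * 3 :=
      mul_le_mul (hc0 n) h1 (abs_nonneg _) hc00
    have h3 : 0 ≤ ε * (1 / l) * c n := by have := hc n; positivity
    linarith
  · have h1 := mul_le_mul_of_nonneg_left (hwt n hn (not_lt.1 h)) (hc n)
    linarith

/-- one pair -/
lemma comb (w z : ℕ) (hw : 2 ≤ w) (hz : 2 ≤ z) (a : ℤ) (m H : ℕ) (l h δ0 ε κ N : ℝ) (hl : 1 ≤ l) (hε : 0 < ε)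
    (hε1 : ε ≤ 1 / 100) (hh : 0 < h) (hδh : δ0 ≤ h)
    (hG1 : |∑ n ∈ Ioc m (m + H), ff z (1 * ((n : ℤ) ^ 2 + a))| ≤ ε * δ0 * (H / (2 * l)))
    (hG2 : |∑ n ∈ Ioc m (m + H), ff z (-1 * ((n : ℤ) ^ 2 + a))| ≤ ε * δ0 * (H / (2 * l)))
    (hF1 : |∑ n ∈ Ioc m (m + H), fz w z (1 * ((n : ℤ) ^ 2 + a))| ≤ ε * δ0 * (H / 2))
    (hF2 : |∑ n ∈ Ioc m (m + H), fz w z (-1 * ((n : ℤ) ^ 2 + a))| ≤ ε * δ0 * (H / 2))
    (hN : (nn a m H κ : ℝ) ≤ N) (hN1 : 3 * N * (Vz z)⁻¹ ≤ ε * δ0 * (H / l)) (hN2 : 3 * N ≤ ε * (H / l))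
    (hwt : ∀ n ∈ Ioc m (m + H), κ ≤ (((n : ℤ) ^ 2 + a).natAbs : ℝ) →
      |wt ((n : ℤ) ^ 2 + a).natAbs - 1 / l| ≤ ε * (1 / l))
    (hV : |hprod a w - h| ≤ ε * h)
    (hQ : |∑ n ∈ Ioc m (m + H), lamz w ((n : ℤ) ^ 2 + a).natAbs - H * hprod a w| ≤ ε * hprod a w * H) :
    |(P a m H : ℝ) - h * Wt a m H| ≤ 12 * ε * (h * Wt a m H) := by
  have hl0 : 0 < l := by linarith
  have hH0 : (0 : ℝ) ≤ H := Nat.cast_nonneg _
  obtain ⟨Qz, hQz⟩ : ∃ Qz, Qz = ∑ n ∈ Ioc m (m + H), lamz z ((n : ℤ) ^ 2 + a).natAbs := ⟨_, rfl⟩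
  obtain ⟨Qw, hQw⟩ : ∃ Qw, Qw = ∑ n ∈ Ioc m (m + H), lamz w ((n : ℤ) ^ 2 + a).natAbs := ⟨_, rfl⟩
  obtain ⟨Z, hZ⟩ : ∃ Z, Z = ∑ n ∈ Ioc m (m + H), lamz z ((n : ℤ) ^ 2 + a).natAbs * wt ((n : ℤ) ^ 2 + a).natAbs := ⟨_, rfl⟩
  have e1 : (P a m H : ℝ) = (∑ n ∈ Ioc m (m + H), ff z (1 * ((n : ℤ) ^ 2 + a)) +
      ∑ n ∈ Ioc m (m + H), ff z (-1 * ((n : ℤ) ^ 2 + a))) + Z := by
    rw [hZ, ← sum_add_distrib, ← sum_add_distrib]
    unfold P
    rw [← sum_boole]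
    refine sum_congr rfl fun n _ => ?_
    rw [ff_two]; ring
  have e2 : (∑ n ∈ Ioc m (m + H), fz w z (1 * ((n : ℤ) ^ 2 + a)) +
      ∑ n ∈ Ioc m (m + H), fz w z (-1 * ((n : ℤ) ^ 2 + a))) = Qz - Qw := by
    rw [hQz, hQw, ← sum_add_distrib, ← sum_sub_distrib]
    refine sum_congr rfl fun n _ => ?_
    rw [fz_two w z hw hz]
  have e3 := sum_near a m H κ l ε (Vz z)⁻¹ (fun n => lamz z ((n : ℤ) ^ 2 + a).natAbs)
    (fun n => Pool.Agent.TH892.SW.lamz_nonneg z _ (by omega))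
    (fun n => Pool.Agent.TH892.SW.lamz_le z _ (by omega)) hl hε.le hwt
  have e4 := sum_near a m H κ l ε 1 (fun _ => 1) (fun _ => zero_le_one) (fun _ => le_rfl) hl hε.le hwt
  rw [← hQz, ← hZ] at e3
  have e5 : ∑ n ∈ Ioc m (m + H), (1 : ℝ) = H := by
    rw [sum_const, Nat.card_Ioc, nsmul_eq_mul, mul_one, Nat.add_sub_cancel_left]
  have e6 : ∑ n ∈ Ioc m (m + H), 1 * wt ((n : ℤ) ^ 2 + a).natAbs = Wt a m H := by
    unfold Wt
    exact sum_congr rfl fun n _ => one_mul _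
  rw [e5, e6] at e4
  rw [← hQw] at hQ
  have hVz0 : 0 < (Vz z)⁻¹ := inv_pos.2 (Pool.Agent.TH892.OW.Vz_pos z)
  have hN3 : 3 * (nn a m H κ : ℝ) * (Vz z)⁻¹ ≤ ε * δ0 * (H / l) :=
    le_trans (mul_le_mul_of_nonneg_right (by linarith) hVz0.le) hN1
  have hN4 : 3 * (nn a m H κ : ℝ) * 1 ≤ ε * (H / l) := by linarith
  have e1' : (P a m H : ℝ) - h * Wt a m H = ((∑ n ∈ Ioc m (m + H), ff z (1 * ((n : ℤ) ^ 2 + a)) +
      ∑ n ∈ Ioc m (m + H), ff z (-1 * ((n : ℤ) ^ 2 + a)))) + (Z - h * Wt a m H) := by rw [e1]; ring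
  rw [e1']
  generalize Wt a m H = W at *
  generalize ∑ n ∈ Ioc m (m + H), ff z (1 * ((n : ℤ) ^ 2 + a)) = G1 at *
  generalize ∑ n ∈ Ioc m (m + H), ff z (-1 * ((n : ℤ) ^ 2 + a)) = G2 at *
  generalize ∑ n ∈ Ioc m (m + H), fz w z (1 * ((n : ℤ) ^ 2 + a)) = F1 at *
  generalize ∑ n ∈ Ioc m (m + H), fz w z (-1 * ((n : ℤ) ^ 2 + a)) = F2 at *
  generalize hprod a w = V at *
  clear e1 e1' hZ hQz hQw e5 e6 hwt hN1 hN2
  set q := (H : ℝ) / l with hq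
  have hq0 : 0 ≤ q := by rw [hq]; positivity
  have hHq : (H : ℝ) = q * l := by rw [hq]; field_simp
  have hhq : 0 ≤ h * q := by positivity
  have hV2 := abs_le.1 hV
  have hεh : ε * h ≤ 1 / 100 * h := mul_le_mul_of_nonneg_right hε1 hh.le
  have hV3 : V ≤ 101 / 100 * h := by linarith
  have hδq : ε * δ0 * q ≤ ε * (h * q) := by
    have : ε * δ0 * q ≤ ε * h * q := by gcongr
    linarith
  have g1 : |G1 + G2| ≤ ε * (h * q) := by
    have h1 := abs_add_le G1 G2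
    have h2 : ε * δ0 * (H / (2 * l)) = ε * δ0 * q / 2 := by rw [hq]; field_simp
    rw [h2] at hG1 hG2
    linarith
  have g2 : |Qz - Qw| ≤ ε * (h * q) * l := by
    have h1 := abs_add_le F1 F2
    rw [e2] at h1
    have h2 : ε * δ0 * ((H : ℝ) / 2) = ε * δ0 * q * l / 2 := by rw [hHq]; ring
    rw [h2] at hF1 hF2
    have h3 := mul_le_mul_of_nonneg_right hδq hl0.le
    linarith
  have g3 : |Qz - h * q * l| ≤ 4 * ε * (h * q) * l := by
    have h1 : Qz - h * q * l = (Qz - Qw) + (Qw - H * V) + (V - h) * H := by rw [hHq]; ring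
    rw [h1]
    refine (abs_add_le _ _).trans ?_
    have a2 := abs_add_le (Qz - Qw) (Qw - H * V)
    have a3 : |(V - h) * H| ≤ ε * h * H := by
      rw [abs_mul, abs_of_nonneg hH0]
      exact mul_le_mul_of_nonneg_right hV hH0
    have a4 : ε * V * H ≤ ε * (101 / 100 * h) * H := by gcongr
    have a5 : ε * h * H = ε * (h * q) * l := by rw [hHq]; ring
    have a6 : ε * (101 / 100 * h) * H = 101 / 100 * (ε * (h * q) * l) := by rw [hHq]; ring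
    have a7 : 0 ≤ ε * (h * q) * l := by positivity
    rw [a5] at a3
    rw [a6] at a4
    linarith
  have g4 : Qz ≤ 104 / 100 * (h * q * l) := by
    have h1 := (abs_le.1 g3).2
    have h2 : 4 * ε * (h * q) * l ≤ 4 * (1 / 100) * (h * q) * l := by gcongr
    linarith
  have g5 : |Z - 1 / l * Qz| ≤ 205 / 100 * (ε * (h * q)) := by
    have h1 : ε * (1 / l) * Qz ≤ ε * (1 / l) * (104 / 100 * (h * q * l)) := by gcongr
    have h2 : ε * (1 / l) * (104 / 100 * (h * q * l)) = 104 / 100 * (ε * (h * q)) := by field_simp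
    have h3 : 0 ≤ ε * (h * q) := by positivity
    linarith
  have g6 : |1 / l * Qz - h * q| ≤ 4 * (ε * (h * q)) := by
    have h1 : 1 / l * Qz - h * q = 1 / l * (Qz - h * q * l) := by field_simp
    rw [h1, abs_mul, abs_of_pos (by positivity)]
    calc 1 / l * |Qz - h * q * l| ≤ 1 / l * (4 * ε * (h * q) * l) := by gcongr
      _ = _ := by field_simp
  have g7 : |W - q| ≤ 2 * ε * q := by
    have h1 : 1 / l * (H : ℝ) = q := by rw [hq]; ring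
    have h2 : ε * (1 / l) * (H : ℝ) = ε * q := by rw [hq]; ring
    rw [h1, h2] at e4
    linarith
  have g8 : |h * q - h * W| ≤ 2 * (ε * (h * q)) := by
    have h1 : h * q - h * W = -(h * (W - q)) := by ring
    rw [h1, abs_neg, abs_mul, abs_of_pos hh]
    calc h * |W - q| ≤ h * (2 * ε * q) := by gcongr
      _ = _ := by ring
  have g9 : |(G1 + G2) + (Z - h * W)| ≤ 10 * (ε * (h * q)) := by
    have h1 : (G1 + G2) + (Z - h * W) = (G1 + G2) + (Z - 1 / l * Qz) + (1 / l * Qz - h * q) + (h * q - h * W) := by ring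
    rw [h1]
    have b1 := abs_add_le ((G1 + G2) + (Z - 1 / l * Qz) + (1 / l * Qz - h * q)) (h * q - h * W)
    have b2 := abs_add_le ((G1 + G2) + (Z - 1 / l * Qz)) (1 / l * Qz - h * q)
    have b3 := abs_add_le (G1 + G2) (Z - 1 / l * Qz)
    have h3 : 0 ≤ ε * (h * q) := by positivity
    linarith
  have g10 : 98 / 100 * (h * q) ≤ h * W := by
    have h1 := (abs_le.1 g8).2
    have h2 : 2 * (ε * (h * q)) ≤ 2 * (1 / 100 * (h * q)) := by gcongr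
    linarith
  refine g9.trans ?_
  have h1 : 12 * ε * (98 / 100 * (h * q)) ≤ 12 * ε * (h * W) := by gcongr
  have h3 : 0 ≤ ε * (h * q) := by positivity
  linarith

/-! ### the weights -/

lemma wt_close (C : ℕ) (ε : ℝ) (hε : 0 < ε) : ∃ X0 : ℕ, ∀ X : ℕ, X0 ≤ X → ∀ v : ℕ,
    (X : ℝ) / Real.log X ^ 6 ≤ v → (v : ℝ) ≤ X * Real.log X ^ C → |wt v - 1 / Real.log X| ≤ ε * (1 / Real.log X) := by
  have hev : ∀ᶠ X : ℕ in atTop, (10000 : ℝ) ≤ Real.log X ∧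
      ((12 + 2 * (C + 6) / ε)) * Real.log (Real.log X) ^ 1 ≤ Real.log X ^ (1 : ℝ) := by
    filter_upwards [evt_log_ge 10000, evt_ll 1 1 (12 + 2 * (C + 6) / ε) (by norm_num)] with X a1 a2
    exact ⟨a1, a2⟩
  obtain ⟨X1, hX1⟩ := eventually_atTop.1 hev
  refine ⟨max X1 1, fun X hX v hv1 hv2 => ?_⟩
  obtain ⟨hl, hm⟩ := hX1 X (le_trans (le_max_left _ _) hX)
  have hXp : 1 ≤ X := le_trans (le_max_right _ _) hX
  clear hev hX1 hX
  rw [pow_one, Real.rpow_one] at hm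
  have hXr : (1 : ℝ) ≤ X := by exact_mod_cast hXp
  have hX0 : (0 : ℝ) < X := by linarith
  obtain ⟨l, hlX⟩ : ∃ l, l = Real.log X := ⟨_, rfl⟩
  rw [← hlX] at hl hm hv1 hv2 ⊢
  have hl0 : 0 < l := by linarith
  have hl1 : 1 ≤ l := by linarith
  obtain ⟨m, hml⟩ : ∃ m, m = Real.log l := ⟨_, rfl⟩
  rw [← hml] at hm
  have hm0 : 0 ≤ m := by rw [hml]; exact Real.log_nonneg hl1
  have hvp : (0 : ℝ) < v := lt_of_lt_of_le (by positivity) hv1
  have h1 : l - 6 * m ≤ Real.log v := by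
    have h2 := Real.log_le_log (by positivity) hv1
    rw [Real.log_div (by positivity) (by positivity), Real.log_pow, ← hlX, ← hml] at h2
    push_cast at h2
    exact h2
  have h2 : Real.log v ≤ l + C * m := by
    have h2 := Real.log_le_log hvp hv2
    rw [Real.log_mul (by positivity) (by positivity), Real.log_pow, ← hlX, ← hml] at h2
    exact h2
  have hC0 : (0 : ℝ) ≤ C := Nat.cast_nonneg _
  have h3 : 12 * m ≤ l := by
    have h4 : 0 ≤ 2 * (C + 6) / ε * m := by positivity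
    have h5 : (12 + 2 * (C + 6) / ε) * m = 12 * m + 2 * (C + 6) / ε * m := by ring
    linarith
  have h4 : 2 * (C + 6) * m ≤ ε * l := by
    have h5 : (12 + 2 * (C + 6) / ε) * m = 12 * m + 2 * (C + 6) / ε * m := by ring
    have h6 : 2 * (C + 6) / ε * m ≤ l := by linarith
    have h7 : 2 * (C + 6) / ε * m * ε ≤ l * ε := mul_le_mul_of_nonneg_right h6 hε.le
    have h8 : 2 * ((C : ℝ) + 6) / ε * m * ε = 2 * (C + 6) * m := by field_simp
    linarith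
  have h5 : l / 2 ≤ Real.log v := by linarith
  have h6 : 0 < Real.log v := by linarith
  unfold wt
  have e1 : 1 / Real.log v - 1 / l = (l - Real.log v) / (Real.log v * l) := by field_simp
  rw [e1, abs_div, abs_of_pos (show 0 < Real.log v * l by positivity), div_le_iff₀ (by positivity)]
  have h7 : |l - Real.log v| ≤ (C + 6) * m := by
    rw [abs_le]
    have : 0 ≤ C * m := by positivity
    constructor <;> nlinarith
  calc |l - Real.log v| ≤ (C + 6) * m := h7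
    _ ≤ ε * (l / 2) := by linarith
    _ ≤ ε * Real.log v := by gcongr
    _ = ε * (1 / l) * (Real.log v * l) := by field_simp

end Run7.h285.E3
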