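import Pool.Agent.Run7.h285.E3b
import Pool.Agent.Run7.h285.E2b

/-!
# Piece E of the project CR (helper757): the assembly
-/

set_option autoImplicit false

namespace Run7.h285.E3

open Finset Filter Topology
open Pool.Agent.H373R2.T7 (pz Vz lamz mem_pz Vz_ge Vz_inv_le Vz_le_one Vz_inv_small)
open Pool.Agent.TH892.SW (ff ffn wt wt_nonneg wt_le flq HP)
open Pool.Agent.TH892.OW (fz lz evt_ll)
open Run7.h757.CR (M2 P Wt hprod S_E1 S_E2 S_HG S_E)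
open Pool.Agent.H442R2.EHI (evt_log_pow evt_log_ge)

/-- the strong form of `S_E`: `T` depends on `ε` only, and all lengths up to `M` are allowed -/
def S_EE : Prop := ∀ ε : ℝ, 0 < ε → ∃ T : ℝ, 0 < T ∧ ∀ C : ℕ, ∃ B X₀ : ℕ, ∀ X : ℕ, X₀ ≤ X → ∀ m₀ M H : ℕ,
  (X : ℝ) ^ (1 / 3 : ℝ) * Real.log X ^ B ≤ M → (m₀ : ℝ) + M ≤ √X * Real.log X ^ C → T * Real.log X ≤ H → H ≤ M →
  ∃ Bad ⊆ Icc (-(X : ℤ)) X ×ˢ Ioc m₀ (m₀ + M), (#Bad : ℝ) ≤ ε * (X * M) ∧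
    ∀ a ∈ Icc (-(X : ℤ)) X, ∀ m ∈ Ioc m₀ (m₀ + M), (a, m) ∉ Bad →
      ¬ IsSquare (-a) ∧ ∃ h : ℝ, 0 < h ∧ Tendsto (fun N : ℕ => hprod a N) atTop (𝓝 h) ∧
        |(P a m H : ℝ) - h * Wt a m H| ≤ ε * (h * Wt a m H)

lemma hprod_nonneg (a : ℤ) (z : ℕ) : 0 ≤ hprod a z := by
  unfold hprod
  apply prod_nonneg
  intro w hw
  rw [mem_filter] at hw
  have h3 : (3 : ℝ) ≤ w := by
    have := hw.2.1.two_le
    have h2 := hw.2.2
    exact_mod_cast (by omega : 3 ≤ w)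
  have h1 := (abs_le.1 (Pool.Agent.TH892.SW.js_le (-a) w)).2
  rw [sub_nonneg, div_le_one (by linarith)]
  linarith

lemma card_or (S : Finset (ℤ × ℕ)) (p q : ℤ × ℕ → Prop) [DecidablePred p] [DecidablePred q] (x y : ℝ)
    (hp : (#(S.filter p) : ℝ) ≤ x) (hq : (#(S.filter q) : ℝ) ≤ y) :
    (#(S.filter (fun s => p s ∨ q s)) : ℝ) ≤ x + y := by
  rw [filter_or]
  have h1 := card_union_le (S.filter p) (S.filter q)
  have h2 : (#(S.filter p ∪ S.filter q) : ℝ) ≤ #(S.filter p) + #(S.filter q) := by exact_mod_cast h1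
  linarith

lemma cheb_ar (XM q θ ε eδ : ℝ) (hq : 0 < q) (he : 0 < eδ) (hθ : θ = ε * eδ ^ 2 / 64) :
    XM * (q ^ 2 * θ) / (eδ * (q / 2)) ^ 2 = ε / 16 * XM := by
  rw [hθ]; field_simp; ring

open Classical in
theorem ee (h1 : S_E1) (h2 : S_E2) (h3 : S_HG) : S_EE := by
  intro ε hε
  obtain ⟨ε₁, hε₁⟩ : ∃ ε₁, ε₁ = min ε 1 / 100 := ⟨_, rfl⟩
  have hmin : 0 < min ε 1 := lt_min hε one_pos
  have he0 : 0 < ε₁ := by rw [hε₁]; positivity
  have he1 : 12 * ε₁ ≤ ε := by rw [hε₁]; have := min_le_left ε 1; linarith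
  have he2 : ε₁ ≤ 1 / 100 := by rw [hε₁]; have := min_le_right ε 1; linarith
  obtain ⟨δ0, hδ0, hHG⟩ := h3 (ε / 4) (by positivity)
  obtain ⟨C1, y0, hC1, hy0, hfl⟩ := fl
  obtain ⟨b, hb1, hb2⟩ : ∃ b : ℕ, C1 ≤ b ∧ 2 * (1 / 2 : ℝ) ^ b ≤ ε₁ := by
    obtain ⟨n, hn⟩ := exists_pow_lt_of_lt_one (show (0 : ℝ) < ε₁ / 2 by positivity) (show (1 / 2 : ℝ) < 1 by norm_num)
    refine ⟨C1 + n, by omega, ?_⟩
    have h4 : (1 / 2 : ℝ) ^ (C1 + n) ≤ (1 / 2 : ℝ) ^ n := pow_le_pow_of_le_one (by norm_num) (by norm_num) (by omega)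
    linarith
  obtain ⟨u, hu⟩ : ∃ u, u = C1 * b := ⟨_, rfl⟩
  have hu1 : 1 ≤ u := by rw [hu]; exact Nat.mul_pos (by omega) (by omega)
  have hur : (0 : ℝ) < u := by exact_mod_cast hu1
  obtain ⟨Xg, hXg⟩ := hHG ε₁ he0 u hu1
  obtain ⟨θ, hθ⟩ : ∃ θ, θ = ε * (ε₁ * δ0) ^ 2 / 64 := ⟨_, rfl⟩
  have hθ0 : 0 < θ := by rw [hθ]; positivity
  obtain ⟨T, hT, hff⟩ := mom_ff h1 θ hθ0
  refine ⟨T, by linarith, fun C => ?_⟩
  obtain ⟨E1, hff⟩ := hff C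
  obtain ⟨E, hE⟩ : ∃ E, E = E1 + 1 := ⟨_, rfl⟩
  obtain ⟨B, Xa, hff⟩ := hff E (by omega)
  obtain ⟨Xb, hfz⟩ := mom_fz h2 θ hθ0 C E u (by omega) hu1
  obtain ⟨Xc, hVz⟩ := Run7.h285.E2.Vz_sqrt E (by omega)
  obtain ⟨Xd, hwc⟩ := wt_close (2 * C + 1) ε₁ he0
  have hev : ∀ᶠ X : ℕ in atTop, (10000 + 16 / ε + 3 / (ε₁ * δ0) + 3 / ε₁ : ℝ) ≤ Real.log X ∧
      ((y0 : ℝ) + 1) * Real.log (Real.log X) ^ 0 ≤ Real.log X ^ (1 / (u : ℝ)) ∧
      Real.log X ^ 5 ≤ (X : ℝ) ^ (1 : ℝ) := by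
    filter_upwards [evt_log_ge _, evt_ll 0 (1 / (u : ℝ)) (y0 + 1) (by positivity),
      evt_log_pow 5 1 (by norm_num)] with X a1 a2 a3
    exact ⟨a1, a2, a3⟩
  obtain ⟨Xe, hXe⟩ := eventually_atTop.1 hev
  refine ⟨B, Xg + Xa + Xb + Xc + Xd + Xe, fun X hX m₀ M H hM hW hTH hHM => ?_⟩
  obtain ⟨BadG, -, hBadG, hgood⟩ := hXg X (by omega)
  have hff := hff X (by omega) m₀ M H hM hW hTH hHM
  have hVz := hVz X (by omega)
  have hwc := hwc X (by omega)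
  obtain ⟨hl, hlu, hlX⟩ := hXe X (by omega)
  have p1 : 0 < 16 / ε := by positivity
  have p2 : 0 < 3 / (ε₁ * δ0) := by positivity
  have p3 : 0 < 3 / ε₁ := by positivity
  have hl1' : 1 ≤ Real.log X := by linarith
  have hTH' : Real.log X ≤ H := by
    have : 1 * Real.log X ≤ T * Real.log X := mul_le_mul_of_nonneg_right hT (by linarith)
    linarith
  have hM3 : (X : ℝ) ^ (1 / 3 : ℝ) ≤ M := by
    refine le_trans ?_ hM
    exact le_mul_of_one_le_right (by positivity) (one_le_pow₀ hl1')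
  have hfz := hfz X (by omega) m₀ M H hM3 hW hTH' hHM
  clear hXg hXe hev h1 h2 h3 hHG
  rw [pow_zero, mul_one] at hlu
  rw [Real.rpow_one] at hlX
  have hXp : 1 ≤ X := by
    rcases Nat.eq_zero_or_pos X with h | h
    · rw [h] at hl1'; norm_num at hl1'
    · exact h
  obtain ⟨w, hw⟩ : ∃ w, w = ⌊Real.log X ^ (1 / (u : ℝ))⌋₊ := ⟨_, rfl⟩
  obtain ⟨z, hz⟩ : ∃ z, z = ⌊Real.log X ^ E⌋₊ := ⟨_, rfl⟩
  rw [← hz] at hff hfz hVz
  rw [← hw] at hfz hgood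
  generalize Real.log X = l at *
  have hl0 : 0 < l := by linarith
  have hwl : (w : ℝ) ≤ l ^ (1 / (u : ℝ)) := by rw [hw]; exact Nat.floor_le (by positivity)
  have hwy : y0 ≤ w := by
    have h4 := Nat.lt_floor_add_one (l ^ (1 / (u : ℝ)))
    rw [← hw] at h4
    have h5 : (y0 : ℝ) < w := by linarith
    exact_mod_cast h5.le
  have hw2 : 2 ≤ w := by omega
  have hwu : ((w ^ (C1 * b) : ℕ) : ℝ) ≤ l := by
    rw [← hu]
    push_cast
    calc (w : ℝ) ^ u ≤ (l ^ (1 / (u : ℝ))) ^ u := pow_le_pow_left₀ (Nat.cast_nonneg _) hwl u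
      _ = l := by
          rw [← Real.rpow_natCast, ← Real.rpow_mul hl0.le, one_div, inv_mul_cancel₀ hur.ne', Real.rpow_one]
  have hwH : w ^ (C1 * b) ≤ H := by
    have : ((w ^ (C1 * b) : ℕ) : ℝ) ≤ H := hwu.trans hTH'
    exact_mod_cast this
  have hz2 : 2 ≤ z := by
    have h4 := Nat.lt_floor_add_one (l ^ E)
    rw [← hz] at h4
    have h5 : l ≤ l ^ E := le_self_pow₀ hl1' (by omega)
    have h6 : (2 : ℝ) ≤ z := by linarith
    exact_mod_cast h6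
  have hX1 : (1 : ℝ) ≤ X := by exact_mod_cast hXp
  have hX0 : (0 : ℝ) < X := by linarith
  have hH0 : (0 : ℝ) < H := by linarith
  have hHMr : (H : ℝ) ≤ M := by exact_mod_cast hHM
  have hM0 : (0 : ℝ) < M := by linarith
  have hXM : 0 < (X : ℝ) * M := by positivity
  obtain ⟨S, hS⟩ : ∃ S, S = Icc (-(X : ℤ)) X ×ˢ Ioc m₀ (m₀ + M) := ⟨_, rfl⟩
  obtain ⟨lam1, hlam1⟩ : ∃ x, x = ε₁ * δ0 * ((H : ℝ) / (2 * l)) := ⟨_, rfl⟩
  obtain ⟨lam2, hlam2⟩ : ∃ x, x = ε₁ * δ0 * ((H : ℝ) / 2) := ⟨_, rfl⟩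
  have hlam1p : 0 < lam1 := by rw [hlam1]; positivity
  have hlam2p : 0 < lam2 := by rw [hlam2]; positivity
  -- counting
  have c1 : (#(S.filter (fun p => p.1 ∈ BadG)) : ℝ) ≤ ε / 4 * (X * M) := by
    have h4 : S.filter (fun p => p.1 ∈ BadG) ⊆ BadG ×ˢ Ioc m₀ (m₀ + M) := by
      intro p hp
      rw [mem_filter, hS, mem_product] at hp
      exact mem_product.2 ⟨hp.2, hp.1.2⟩
    have h5 := card_le_card h4
    rw [card_product, Nat.card_Ioc, Nat.add_sub_cancel_left] at h5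
    have h6 : (#(S.filter (fun p => p.1 ∈ BadG)) : ℝ) ≤ #BadG * M := by exact_mod_cast h5
    refine h6.trans ?_
    calc (#BadG : ℝ) * M ≤ (ε / 4 * X) * M := mul_le_mul_of_nonneg_right hBadG hM0.le
      _ = _ := by ring
  have cff : ∀ s : ℤ, (s = 1 ∨ s = -1) →
      (#(S.filter (fun p => lam1 < |∑ n ∈ Ioc p.2 (p.2 + H), ff z (s * ((n : ℤ) ^ 2 + p.1))|)) : ℝ) ≤ ε / 16 * (X * M) := by
    intro s hs
    rw [hS]
    refine (cheb (Icc (-(X : ℤ)) X) (Ioc m₀ (m₀ + M)) (fun a m => ∑ n ∈ Ioc m (m + H), ff z (s * ((n : ℤ) ^ 2 + a)))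
      lam1 _ hlam1p (hff s hs)).trans (le_of_eq ?_)
    rw [hlam1]
    have e : ε₁ * δ0 * ((H : ℝ) / (2 * l)) = (ε₁ * δ0) * ((H : ℝ) / l / 2) := by field_simp
    rw [e]
    exact cheb_ar (X * M) (H / l) θ ε (ε₁ * δ0) (by positivity) (by positivity) hθ
  have cfz : ∀ s : ℤ, (s = 1 ∨ s = -1) →
      (#(S.filter (fun p => lam2 < |∑ n ∈ Ioc p.2 (p.2 + H), fz w z (s * ((n : ℤ) ^ 2 + p.1))|)) : ℝ) ≤ ε / 16 * (X * M) := by
    intro s hs
    rw [hS]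
    refine (cheb (Icc (-(X : ℤ)) X) (Ioc m₀ (m₀ + M)) (fun a m => ∑ n ∈ Ioc m (m + H), fz w z (s * ((n : ℤ) ^ 2 + a)))
      lam2 _ hlam2p (hfz s hs)).trans (le_of_eq ?_)
    rw [hlam2]
    exact cheb_ar (X * M) H θ ε (ε₁ * δ0) hH0 (by positivity) hθ
  have cnn : (#(S.filter (fun p => (H : ℝ) / l ^ 4 < (nn p.1 p.2 H ((X : ℝ) / l ^ 6) : ℝ))) : ℝ) ≤ ε / 4 * (X * M) := by
    rw [hS]
    refine (near (Icc (-(X : ℤ)) X) m₀ M H ((X : ℝ) / l ^ 6) ((H : ℝ) / l ^ 4) (by positivity) (by positivity)).trans ?_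
    have e : (M : ℝ) * (H * (2 * ((X : ℝ) / l ^ 6) + 1)) / ((H : ℝ) / l ^ 4) = M * (2 * X / l ^ 2 + l ^ 4) := by
      field_simp
    rw [e]
    have h4 : 16 / ε ≤ l := by linarith
    rw [div_le_iff₀ hε] at h4
    have h5 : 2 * X / l ^ 2 ≤ ε / 8 * X := by
      rw [div_le_iff₀ (by positivity)]
      have h6 : l ≤ l ^ 2 := le_self_pow₀ hl1' (by norm_num)
      have h7 : 16 ≤ l ^ 2 * ε := h4.trans (mul_le_mul_of_nonneg_right h6 hε.le)
      nlinarith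
    have h6 : l ^ 4 ≤ ε / 8 * X := by
      have h7 : 1 ≤ ε / 8 * l := by linarith
      calc l ^ 4 = 1 * l ^ 4 := (one_mul _).symm
        _ ≤ (ε / 8 * l) * l ^ 4 := mul_le_mul_of_nonneg_right h7 (by positivity)
        _ = ε / 8 * l ^ 5 := by ring
        _ ≤ ε / 8 * X := mul_le_mul_of_nonneg_left hlX (by positivity)
    calc (M : ℝ) * (2 * X / l ^ 2 + l ^ 4) ≤ M * (ε / 8 * X + ε / 8 * X) := mul_le_mul_of_nonneg_left (by linarith) hM0.le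
      _ = _ := by ring
  have c2 := card_or S _ _ _ _ c1 (card_or S _ _ _ _ (cff 1 (Or.inl rfl)) (card_or S _ _ _ _ (cff (-1) (Or.inr rfl))
    (card_or S _ _ _ _ (cfz 1 (Or.inl rfl)) (card_or S _ _ _ _ (cfz (-1) (Or.inr rfl)) cnn))))
  refine ⟨_, ?_, c2.trans ?_, ?_⟩
  · rw [← hS]; exact filter_subset _ _
  · have : 0 ≤ ε * ((X : ℝ) * M) := by positivity
    linarith
  · intro a ha m hm hbad
    rw [mem_filter] at hbad
    push Not at hbad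
    obtain ⟨g1, g2, g3, g4, g5, g6⟩ := hbad (by rw [hS]; exact mem_product.2 ⟨ha, hm⟩)
    simp only at g1 g2 g3 g4 g5 g6
    obtain ⟨hsq, h, hδh, hlim, hhw⟩ := hgood a ha g1
    have hh0 : 0 < h := by linarith
    refine ⟨hsq, h, hh0, hlim, ?_⟩
    have hP0 : 0 ≤ hprod a w := hprod_nonneg a w
    have hfl1 := hfl b hb1 w hwy H hwH a m
    have hQ : |∑ n ∈ Ioc m (m + H), lamz w ((n : ℤ) ^ 2 + a).natAbs - H * hprod a w| ≤ ε₁ * hprod a w * H := by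
      refine hfl1.trans ?_
      apply mul_le_mul_of_nonneg_right _ hH0.le
      exact mul_le_mul_of_nonneg_right hb2 hP0
    have hVzl : (Vz z)⁻¹ ≤ l := by
      have h4 : √l ≤ l := by rw [Real.sqrt_le_left hl0.le]; nlinarith
      have h5 := inv_pos.2 (Pool.Agent.TH892.OW.Vz_pos z)
      linarith
    have hcomb := comb w z hw2 hz2 a m H l h δ0 ε₁ ((X : ℝ) / l ^ 6) ((H : ℝ) / l ^ 4) hl1' he0 he2 hh0 hδh
      (by rw [← hlam1]; exact g2) (by rw [← hlam1]; exact g3) (by rw [← hlam2]; exact g4) (by rw [← hlam2]; exact g5) g6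
      (by
        have h4 : 3 / (ε₁ * δ0) ≤ l := by linarith
        rw [div_le_iff₀ (by positivity)] at h4
        have h5 : l ≤ l ^ 2 := le_self_pow₀ hl1' (by norm_num)
        have h6 : 3 ≤ ε₁ * δ0 * l ^ 2 := by
          have := mul_le_mul_of_nonneg_left h5 (show 0 ≤ ε₁ * δ0 by positivity)
          linarith
        calc 3 * ((H : ℝ) / l ^ 4) * (Vz z)⁻¹ ≤ 3 * ((H : ℝ) / l ^ 4) * l := mul_le_mul_of_nonneg_left hVzl (by positivity)
          _ = 3 * ((H : ℝ) / l ^ 3) := by field_simp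
          _ ≤ (ε₁ * δ0 * l ^ 2) * ((H : ℝ) / l ^ 3) := mul_le_mul_of_nonneg_right h6 (by positivity)
          _ = ε₁ * δ0 * ((H : ℝ) / l) := by field_simp)
      (by
        have h4 : 3 / ε₁ ≤ l := by linarith
        rw [div_le_iff₀ (by positivity)] at h4
        have h5 : l ≤ l ^ 3 := le_self_pow₀ hl1' (by norm_num)
        have h6 : 3 ≤ ε₁ * l ^ 3 := by
          have := mul_le_mul_of_nonneg_left h5 he0.le
          linarith
        calc 3 * ((H : ℝ) / l ^ 4) ≤ (ε₁ * l ^ 3) * ((H : ℝ) / l ^ 4) := mul_le_mul_of_nonneg_right h6 (by positivity)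
          _ = ε₁ * ((H : ℝ) / l) := by field_simp)
      (by
        intro n hn hκ
        refine hwc _ hκ ?_
        rw [mem_Ioc] at hn hm
        rw [mem_Icc] at ha
        have h4 : (((n : ℤ) ^ 2 + a).natAbs : ℝ) ≤ (n : ℝ) ^ 2 + X := by
          have h5 : ((n : ℤ) ^ 2 + a).natAbs ≤ n ^ 2 + X := by
            have h6 : (0 : ℤ) ≤ (n : ℤ) ^ 2 := sq_nonneg _
            have h7 : (((n ^ 2 : ℕ) : ℤ)) = (n : ℤ) ^ 2 := by push_cast; rfl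
            omega
          exact_mod_cast h5
        refine h4.trans ?_
        have h5 : (n : ℝ) ≤ 2 * (√X * l ^ C) := by
          have h6 : (n : ℝ) ≤ m + H := by exact_mod_cast hn.2
          have h7 : (m : ℝ) ≤ m₀ + M := by exact_mod_cast hm.2
          have h8 : (0 : ℝ) ≤ m₀ := Nat.cast_nonneg _
          linarith
        have h6 : (n : ℝ) ^ 2 ≤ (2 * (√X * l ^ C)) ^ 2 := pow_le_pow_left₀ (Nat.cast_nonneg _) h5 2
        have h7 : (2 * (√(X : ℝ) * l ^ C)) ^ 2 = 4 * (X * l ^ (2 * C)) := by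
          rw [mul_pow, mul_pow, Real.sq_sqrt hX0.le, ← pow_mul, mul_comm C 2]; norm_num
        have h8 : 1 ≤ l ^ (2 * C) := one_le_pow₀ hl1'
        have h9 : (X : ℝ) ≤ X * l ^ (2 * C) := le_mul_of_one_le_right hX0.le h8
        have h10 : (X : ℝ) * l ^ (2 * C + 1) = l * (X * l ^ (2 * C)) := by ring
        have h11 : 5 * ((X : ℝ) * l ^ (2 * C)) ≤ l * (X * l ^ (2 * C)) :=
          mul_le_mul_of_nonneg_right (by linarith) (by positivity)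
        rw [h10]
        linarith)
      hhw hQ
    refine hcomb.trans ?_
    have hWt : 0 ≤ Wt a m H := by
      unfold Wt
      exact sum_nonneg fun _ _ => wt_nonneg _
    exact mul_le_mul_of_nonneg_right he1 (by positivity)

/-- the piece E -/
theorem eE (h1 : S_E1) (h2 : S_E2) (h3 : S_HG) : S_E := by
  intro ε C D hε
  obtain ⟨T, hT, h4⟩ := ee h1 h2 h3 ε hε
  obtain ⟨B, X0, h5⟩ := h4 C
  have hev : ∀ᶠ X : ℕ in atTop, (1 : ℝ) ≤ Real.log X ∧ Real.log X ^ D ≤ (X : ℝ) ^ (1 / 3 : ℝ) := by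
    filter_upwards [evt_log_ge 1, evt_log_pow D (1 / 3) (by norm_num)] with X a1 a2
    exact ⟨a1, a2⟩
  obtain ⟨X1, hX1⟩ := eventually_atTop.1 hev
  refine ⟨T, hT, B, max X0 X1, fun X hX m₀ M H hM hW hTH hHD => ?_⟩
  obtain ⟨a1, a2⟩ := hX1 X (le_trans (le_max_right _ _) hX)
  have hHM : H ≤ M := by
    have h6 : (X : ℝ) ^ (1 / 3 : ℝ) ≤ (X : ℝ) ^ (1 / 3 : ℝ) * Real.log X ^ B :=
      le_mul_of_one_le_right (by positivity) (one_le_pow₀ a1)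
    have h7 : (H : ℝ) ≤ M := by linarith
    exact_mod_cast h7
  obtain ⟨Bad, hB1, hB2, hB3⟩ := h5 X (le_trans (le_max_left _ _) hX) m₀ M H hM hW hTH hHM
  exact ⟨Bad, hB1, hB2, fun a ha m hm hb => (hB3 a ha m hm hb).2⟩

end Run7.h285.E3
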